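import Mathlib
import Pool.Agent.BRW.St

set_option autoImplicit false

/-!
# The width of counting logic is at most (1/8 + o(1)) n: definitions

`c : V → V → κ` is a coherent configuration; the fibre of `y` is `{y' | c y' y' = c y y}`; the row
of `x` is the function `c x`.
-/

namespace Pool.Agent.WLE

open Pool.Agent.BRW

open Classical in
/-- Number of elements of `A` in the class `i` of `f`. -/
noncomputable def cs {V κ : Type} (f : V → κ) (A : Finset V) (i : κ) : ℕ :=
  (A.filter (fun y => f y = i)).card

open Classical in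
/-- Number of classes of `f` in `A`. -/
noncomputable def Num {V κ : Type} (f : V → κ) (A : Finset V) : ℕ := (A.image f).card

open Classical in
/-- The potential: sum of `(size - 2)^+` over the classes of `f` in `A`. -/
noncomputable def Phi {V κ : Type} (f : V → κ) (A : Finset V) : ℕ :=
  ∑ i ∈ A.image f, (cs f A i - 2)

open Classical in
/-- Sum of the square roots of the sizes of the classes of `f` in `A`. -/
noncomputable def Sq {V κ : Type} (f : V → κ) (A : Finset V) : ℝ :=
  ∑ i ∈ A.image f, Real.sqrt (cs f A i)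

/-- The fibre function of `c`. -/
def fib {V κ : Type} (c : V → V → κ) : V → κ := fun y => c y y

/-- `A` is a union of fibres. -/
def Cl {V κ : Type} (c : V → V → κ) (A : Finset V) : Prop :=
  ∀ x y : V, c x x = c y y → x ∈ A → y ∈ A

/-- The relation `R` is a union of colours. -/
def Inv {V κ : Type} (c : V → V → κ) (R : V → V → Prop) : Prop :=
  ∀ x y x' y' : V, c x y = c x' y' → (R x y ↔ R x' y')

/-- `c'` refines `c`. -/
def Ref {V κ κ' : Type} (c' : V → V → κ') (c : V → V → κ) : Prop :=
  ∀ x y x' y' : V, c' x y = c' x' y' → c x y = c x' y'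

/-- The fibres of `x` and `y` are different and dependent: row `x` is not constant on the fibre
of `y`. -/
def Dep {V κ : Type} (c : V → V → κ) (x y : V) : Prop :=
  c x x ≠ c y y ∧ ∃ z : V, c z z = c y y ∧ c x z ≠ c x y

/-- The fibre of `u` is simple: up to reversal only one colour outside the diagonal. -/
def Simple {V κ : Type} (c : V → V → κ) (u : V) : Prop :=
  ∀ x y x' y' : V, c x x = c u u → c y y = c u u → c x' x' = c u u → c y' y' = c u u →
    x ≠ y → x' ≠ y' → c x y = c x' y' ∨ c x y = c y' x'

/-- Adjacency is constant between the fibres of `x` and `y`. -/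
def Hom {V κ : Type} (G : SimpleGraph V) (c : V → V → κ) (x y : V) : Prop :=
  ∀ x' y' x'' y'' : V, c x' x' = c x x → c y' y' = c y y → c x'' x'' = c x x →
    c y'' y'' = c y y → x' ≠ y' → x'' ≠ y'' → (G.Adj x' y' ↔ G.Adj x'' y'')

/-- Number of neighbours of `x` in the fibre of `y`. -/
noncomputable def na {V κ : Type} (G : SimpleGraph V) (c : V → V → κ) (x y : V) : ℕ :=
  Nat.card {w : V // c w w = c y y ∧ w ≠ x ∧ G.Adj x w}

/-- Number of non-neighbours `≠ x` of `x` in the fibre of `y`. -/
noncomputable def nb {V κ : Type} (G : SimpleGraph V) (c : V → V → κ) (x y : V) : ℕ :=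
  Nat.card {w : V // c w w = c y y ∧ w ≠ x ∧ ¬ G.Adj x w}

/-- The minority graph: the adjacency status of `(x, y)` is the less frequent one between the
fibres of `x` and `y` (tie: adjacency). -/
def Mn {V κ : Type} (G : SimpleGraph V) (c : V → V → κ) (x y : V) : Prop :=
  x ≠ y ∧ ((na G c x y ≤ nb G c x y ∧ G.Adj x y) ∨ (nb G c x y < na G c x y ∧ ¬ G.Adj x y))

/-- Edges inside the final cells. -/
def Hh {V κ κ' : Type} (G : SimpleGraph V) (c₀ : V → V → κ) (c₂ : V → V → κ') (x y : V) : Prop :=
  Mn G c₀ x y ∧ ¬ Hom G c₂ x y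

/-- Different elements of `T` are in different fibres. -/
def Dif {V κ : Type} (c : V → V → κ) (T : Finset V) : Prop :=
  ∀ y ∈ T, ∀ y' ∈ T, y ≠ y' → c y y ≠ c y' y'

/-- Dependence of complex fibres in `A` outside `P`. -/
def Cx {V κ : Type} (c : V → V → κ) (A P : Finset V) (x y : V) : Prop :=
  Dep c x y ∧ ¬ Simple c x ∧ ¬ Simple c y ∧ x ∈ A ∧ y ∈ A ∧ x ∉ P ∧ y ∉ P

end Pool.Agent.WLE
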