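import Mathlib
import Pool.Agent.BRW.St
import Pool.Agent.WLE.Defs

set_option autoImplicit false

/-!
# The width of counting logic is at most (1/8 + o(1)) n: statements of the modules

Whole paper proof: team-store file `wle_paper.md`. Available theorems (namespace
`Pool.Agent.BRW`, files `Pool/Agent/BRW/*.lean`): `cnt : StmtCNT`, `vals cnt : StmtVAL`,
`sim : StmtSIM`, `peb`, `tyc sim : StmtTYC`, `cel ... : StmtCEL`. Each module proves one `Stmt...`
(namespace `Pool.Agent.WLE`), importing what it needs.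
-/

namespace Pool.Agent.WLE

open Pool.Agent.BRW

/-! ## Classes of functions -/

/-- MON. If `f` refines `g`. Proof. Every class of `g` in `A` is a disjoint union of classes of `f`
in `A` (nonempty set of nonempty classes). `(a+b-2)^+ ≥ (a-2)^+ + (b-2)^+`,
`√(a+b) ≤ √a + √b`, `(a-2)^+ ≤ a`, `√a ≤ a` for naturals. -/
def StmtMON : Prop :=
  ∀ (V κ κ' : Type) [Fintype V] (f : V → κ) (g : V → κ') (A : Finset V),
    (∀ y y', f y = f y' → g y = g y') →
    Phi f A ≤ Phi g A ∧ Num g A ≤ Num f A ∧ Sq g A ≤ Sq f A ∧ Num f A ≤ A.card ∧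
      Sq f A ≤ A.card ∧ Phi f A ≤ A.card

open Classical in
/-- LOC. Local changes add up (`f` refines `g`; `T` a set of classes of `g`, `δ` a lower bound of the
local change on the classes in `T`; all other local changes are `≥ 0` as in MON). -/
def StmtLOC : Prop :=
  ∀ (V κ κ' : Type) [Fintype V] (f : V → κ) (g : V → κ') (A : Finset V) (T : Finset κ'),
    (∀ y y', f y = f y' → g y = g y') → T ⊆ A.image g →
    (∀ δ : κ' → ℕ, (∀ i ∈ T,
        (∑ j ∈ (A.filter (fun y => g y = i)).image f, (cs f A j - 2)) + δ i ≤ cs g A i - 2) →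
      Phi f A + ∑ i ∈ T, δ i ≤ Phi g A) ∧
    (∀ δ : κ' → ℕ, (∀ i ∈ T, 1 + δ i ≤ ((A.filter (fun y => g y = i)).image f).card) →
      Num g A + ∑ i ∈ T, δ i ≤ Num f A) ∧
    (∀ δ : κ' → ℝ, (∀ i ∈ T,
        Real.sqrt (cs g A i) + δ i ≤
          ∑ j ∈ (A.filter (fun y => g y = i)).image f, Real.sqrt (cs f A j)) →
      Sq g A + ∑ i ∈ T, δ i ≤ Sq f A)

/-! ## Dependence and simple fibres -/

/-- DEP. Proof. CNT. (If row `x` is constant on the fibre of `y`, then for `x'` in the fibre of `x`,
`e` with `c x' (e z) = c x z` shows the same for row `x'` with the same colour; and `symm`.) -/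
def StmtDEP : Prop :=
  ∀ (V κ : Type) [Finite V] (c : V → V → κ), Coherent c →
    (∀ x y, Dep c x y → Dep c y x) ∧
    (∀ x y x' y', c x x = c x' x' → c y y = c y' y' → Dep c x y → Dep c x' y') ∧
    (∀ x y, c x x ≠ c y y → ¬ Dep c x y → ∀ x' y', c x' x' = c x x → c y' y' = c y y →
      c x' y' = c x y) ∧
    (∀ u u', c u u = c u' u' → Simple c u → Simple c u')

/-- SMP. A complex fibre has at least `4` elements and row `u` has at least two classes on the rest
of the fibre of `u`. Proof. If row `u` is constant on the rest of the fibre then (CNT for `(u,u)`,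
`(u',u')`) every row `u'` is constant, with the same colour, on the rest of the fibre: simple. If the
fibre has `3` elements `u, y, z` and `P := c u y ≠ Q := c u z`: every row has one `P` and one `Q`
(CNT), so `P` is a permutation of the fibre without fixed points; if `c y u = P` then `P` (colour
of `(u,y)` and of `(y,u)`) is symmetric (`symm`): an involution without fixed points on `3` points,
impossible; so `c y u = Q`, and `c x y ∈ {c x' y', c y' x'}` for all pairs. `≤ 2` elements: clear. -/
def StmtSMP : Prop :=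
  ∀ (V κ : Type) [Finite V] (c : V → V → κ), Coherent c → ∀ u : V, ¬ Simple c u →
    4 ≤ Nat.card {w : V // c w w = c u u} ∧
    ∃ y z, c y y = c u u ∧ c z z = c u u ∧ y ≠ u ∧ z ≠ u ∧ c u y ≠ c u z

/-- FSH (Fisher). Let `X` = fibre of `u` be simple, `F` = fibre of `x` dependent on `X`.
Proof. Let `i` be a colour that occurs on `F × X` but not on all of `F × X`
(`i := c x u`). `k := #{w ∈ F | c w u = i}` does not depend on `u ∈ X`; for `u ≠ u'` in `X`
`#{w ∈ F | c w u = i, c w u' = i}` depends only on the colour of `(u,u')` and is symmetric in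
`u, u'`, so it is a constant `lam ≤ k` as `X` is simple. `lam < k`: if `lam = k` (and `|X| ≥ 2`, which
follows from dependence) then `c w u = i ↔ c w u' = i` for all `w ∈ F`, `u, u' ∈ X`, so each row is
all `i` or without `i`; the number of `i` in row `w` is the same for all `w ∈ F` (CNT), so all or
none: contradiction. Second claim: as `lam < k` some `w ∈ F` has `c w v = i ≠ c w v'`.
First claim: let `G` = fibre of `y` be dependent on `X`, and suppose that `c` is constant on
`F × G`. Let `j` be a colour on `X × G`, `g ∈ G`, `u₀ ∈ X`. `nu := #{u ∈ X | c w u = i, c u g = j}` does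
not depend on `w ∈ F`, `g ∈ G` (CNT). Count the pairs `(w,u)`, `w ∈ F`, `u ∈ X`, `c w u₀ = i`,
`c w u = i`, `c u g = j`: `k nu = (k - lam) [c u₀ g = j] + lam #{u | c u g = j}`, and the last number
does not depend on `g ∈ G`. So `[c u₀ g = j]` does not depend on `u₀ ∈ X`, `g ∈ G`, for every `j`:
`c` is constant on `X × G`, a contradiction. -/
def StmtFSH : Prop :=
  ∀ (V κ : Type) [Finite V] (c : V → V → κ), Coherent c → ∀ x u : V, Simple c u →
    Dep c x u →
    (∀ y, Dep c y u → c x x ≠ c y y → Dep c x y) ∧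
    (∀ v v', c v v = c u u → c v' v' = c u u → v ≠ v' →
      ∃ w, c w w = c x x ∧ c w v ≠ c w v')

/-- SNG. If row `x` has the singleton class `{z}` and only one class on the rest of the fibre of
`z`, then the fibre of `z` is simple. Proof. Let `y, y' ≠ z` be in the fibre of `z`. CNT for
`c x y = c x y'`: `e` with `c x (e w) = c x w`, `c (e w) y' = c w y`; `e z = z`, so `c z y' = c z y`. So row
`z` is constant on the rest of its fibre; by CNT (`(z,z)`, `(z',z')`) all rows are, with the same
colour. -/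
def StmtSNG : Prop :=
  ∀ (V κ : Type) [Finite V] (c : V → V → κ), Coherent c → ∀ x z : V,
    (∀ w, c x w = c x z → w = z) →
    (∀ y y', c y y = c z z → c y' y' = c z z → y ≠ z → y' ≠ z → c x y = c x y') →
    Simple c z

/-- KEY. Proof. Row `x` refines the fibres (VAL). LOC with `T` = the fibres of `x, g 0, g 1, g 2` and
`δ = 2`. Fibre of `x` (size `f ≥ 4` by SMP): the classes of row `x` are `{x}` and `m ≥ 2` others
(SMP) of sizes `s_j`, `∑ s_j = f - 1 ≥ 3`; `(f-2) - ∑ (s_j-2)^+ = -1 + ∑ min(s_j,2) ≥ 2`. Fibre of `g i`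
(size `f ≥ 4`): `m ≥ 2` classes of sizes `t_j`, `∑ t_j = f`,
`(f-2) - ∑ (t_j-2)^+ = -2 + ∑ min(t_j,2) ≥ 2` unless `m = 2` and one class is a singleton `{z}`, which
is excluded by SNG (the fibre of `z` would be simple). (Classes of `c x` in `A`: as `A` is closed the
class in `A` of an element of `A` is the whole class.) -/
def StmtKEY : Prop :=
  ∀ (V κ : Type) [Fintype V] (c : V → V → κ) (A : Finset V), Coherent c → Cl c A →
    ∀ x ∈ A, ¬ Simple c x → ∀ g : Fin 3 → V,
      (∀ i, g i ∈ A ∧ ¬ Simple c (g i) ∧ Dep c x (g i)) →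
      (∀ i j, i ≠ j → c (g i) (g i) ≠ c (g j) (g j)) →
      Phi (c x) A + 8 ≤ Phi (fib c) A

/-- NMD. Proof. LOC (second part) with `T` = the fibres of the elements of `T`, `δ = 1`: row `x` is
not constant on a dependent fibre. -/
def StmtNMD : Prop :=
  ∀ (V κ : Type) [Fintype V] (c : V → V → κ) (A : Finset V), Coherent c → Cl c A →
    ∀ x ∈ A, ∀ T : Finset V, (∀ y ∈ T, y ∈ A ∧ Dep c x y) → Dif c T →
      Num (fib c) A + T.card ≤ Num (c x) A

/-! ## The minority graph -/

/-- MNO. Proof. `na`, `nb` depend only on the fibres of `x` and `y` (CNT), and with `F, F'` the fibres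
of `x, y`: `|F| na x y = |F'| na y x` (double counting of the adjacent pairs of distinct vertices),
`|F| nb x y = |F'| nb y x`; so `na x y ≤ nb x y ↔ na y x ≤ nb y x`. The rest is the definition. -/
def StmtMNO : Prop :=
  ∀ (V κ : Type) [Fintype V] (G : SimpleGraph V) (c : V → V → κ), Coherent c →
    Inv c G.Adj →
    (∀ x y, Mn G c x y → Mn G c y x) ∧ Inv c (Mn G c) ∧
    (∀ x z x1 z1, c x x = c x1 x1 → c z z = c z1 z1 → x ≠ z → x1 ≠ z1 →
      ¬ Mn G c x z → ¬ Mn G c x1 z1 → (G.Adj x z ↔ G.Adj x1 z1)) ∧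
    (∀ x y, Nat.card {w : V // c w w = c y y ∧ Mn G c x w} ≤
      Nat.card {w : V // c w w = c y y ∧ w ≠ x ∧ ¬ Mn G c x w})

open Classical in
/-- DEG. Proof. LOC (third part), `A = univ`, `T` = the fibres `F` with `d_F ≥ 1`, `d_F` the number of
`w ∈ F` with `Mn x w`, `δ_F = √d_F / 2`: the classes of row `x` in `F` are inside `{x}`,
`N := {w ∈ F | Mn x w}` (size `d_F`) and the rest (size `≥ d_F` by MNO), so the sum of their square
roots is `≥ √|N| + √|F ∖ N| ≥ √|F| + √d_F / 2`, since `√a + √b ≥ √(a+b) + √a / 2` for `a ≤ b`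
(`√(a+b) ≤ √b + a/(2√b)`). So `∑ √d_F ≤ 2K` and `∑ d_F ≤ (∑ √d_F)² ≤ 4K²`. -/
def StmtDEG : Prop :=
  ∀ (V κ : Type) [Fintype V] (G : SimpleGraph V) (c : V → V → κ) (K : ℕ), Coherent c →
    Inv c G.Adj → ∀ x : V, Sq (c x) Finset.univ < Sq (fib c) Finset.univ + K →
    Nat.card {y : V // Mn G c x y} ≤ 4 * K ^ 2

/-- DIA. Proof. Balls and spheres of `Γ` are unions of colours (CNT). Suppose some `y` is at
distance `2K` from `x` (otherwise the component has at most `∑_{i<2K} D^i` elements). Choose `z_i` at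
distance `i` from `x`, `1 ≤ i ≤ 2K`, `F_i` its fibre. If `F_i` is not inside the sphere `S_i(x)` then
`F_i` meets at least two spheres or the complement of the component, so it splits in row `x`. For
a fibre `F'` let `n(F')` be the number of `i` with `F_i = F'`, `F'` not inside `S_i(x)`; if
`n(F') ≥ 1` then row `x` has at least `max (2, n(F')) ≥ 1 + n(F')/2` classes on `F'`. So (LOC, second
part) at most `2(K-1)` of the `i` have this property, and some `F_i ⊆ S_i(x)`, `1 ≤ i ≤ 2K`. By
CNT for `(x,x)`, `(x',x')`: `dist x' w = i` for all `x'` in the fibre of `x` and `w ∈ F_i`; so the fibre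
of `x` is inside `S_i(z_i)`, at most `D^i` elements. -/
def StmtDIA : Prop :=
  ∀ (V κ : Type) [Fintype V] (c : V → V → κ) (Γ : SimpleGraph V) (K D : ℕ), Coherent c →
    Inv c Γ.Adj → (∀ x, Nat.card {y : V // Γ.Adj x y} ≤ D) →
    (∀ x, Num (c x) Finset.univ < Num (fib c) Finset.univ + K) →
    ∀ x, Nat.card {y : V // Γ.Reachable x y} ≤ (D + 1) ^ (2 * K) ∨
      Nat.card {y : V // c y y = c x x} ≤ (D + 1) ^ (2 * K)

/-- RCH. The connectivity relation of a union of colours is a union of colours, and sizes of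
components are functions of the fibre. Proof. Walks of length `m`: induction with CNT. -/
def StmtRCH : Prop :=
  ∀ (V κ : Type) [Finite V] (c : V → V → κ) (Γ : SimpleGraph V), Coherent c →
    Inv c Γ.Adj → Inv c Γ.Reachable ∧
    (∀ x x', c x x = c x' x' →
      Nat.card {y : V // Γ.Reachable x y} = Nat.card {y : V // Γ.Reachable x' y})

/-! ## Adding pebbles -/

/-- PIN. Adding one vertex to the parameters. Proof. First claim: `tup k (t+1) (snoc s x) y y` and
`tup k t s x y` are the same tuple `(s,x,y,y,..)`. Second claim: reindex (`StmtSIM`, 5) by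
`i ↦ i` (`i < t`), `t ↦ t+1`, `i ↦ t+2` (`i > t`). -/
def StmtPIN : Prop :=
  ∀ (V : Type) (k t : ℕ) (G : SimpleGraph V) (s : Fin t → V) (x : V), t + 4 ≤ k →
    (∀ y : V, typ k G (t + 1) (Fin.snoc (α := fun _ => V) s x) y y = typ k G t s x y) ∧
    Ref (typ k G (t + 1) (Fin.snoc (α := fun _ => V) s x)) (typ k G t s)

open Classical in
/-- GRZ. First greedy phase. Proof. `P := Sq (fib c) univ + Num (fib c) univ ≤ 2n` (MON). Claim: for
every `t` with `t + 3 ≤ k` there is a terminal `s'` with at most `t` parameters or an `s` with `t`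
parameters and `P ≥ t K`: if `s` is not terminal, `x` the vertex, then for `snoc s x` the fibre function
and row `x` of `typ k G t s` have the same classes (PIN 1), so `P` grows by `≥ K`. For
`t = 2n/K + 1` the second alternative is impossible (`t K > 2n`). -/
def StmtGRZ : Prop :=
  ∀ (V : Type) [Fintype V] (k K : ℕ) (G : SimpleGraph V), 1 ≤ K →
    2 * Fintype.card V / K + 5 ≤ k →
    ∃ (t : ℕ) (s : Fin t → V), t ≤ 2 * Fintype.card V / K ∧
      ∀ x, Sq (typ k G t s x) Finset.univ + Num (typ k G t s x) Finset.univ <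
        Sq (fib (typ k G t s)) Finset.univ + Num (fib (typ k G t s)) Finset.univ + K

/-- GRA. Second greedy phase. Proof. While some `x ∈ A` violates the conclusion pass to `snoc s x`:
`Phi (fib c) A` decreases by `≥ 8` or `Num (fib c) A` increases by `≥ K` (PIN 1; the other potential
changes in the good direction by MON). `8 #(first kind) ≤ Phi ≤ n`, `K #(second kind) ≤ Num ≤ n`. -/
def StmtGRA : Prop :=
  ∀ (V : Type) [Fintype V] (k K t₀ : ℕ) (G : SimpleGraph V) (s₀ : Fin t₀ → V)
    (A : Finset V), 1 ≤ K → t₀ + Fintype.card V / 8 + Fintype.card V / K + 5 ≤ k →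
    ∃ (t : ℕ) (s : Fin t → V), t ≤ t₀ + Fintype.card V / 8 + Fintype.card V / K ∧
      Ref (typ k G t s) (typ k G t₀ s₀) ∧
      ∀ x ∈ A, Phi (fib (typ k G t s)) A < Phi (typ k G t s x) A + 8 ∧
        Num (typ k G t s x) A < Num (fib (typ k G t s)) A + K

/-- ADD. All points of `P` are added to the parameters. Proof. PIN, one point after the other. -/
def StmtADD : Prop :=
  ∀ (V : Type) [Fintype V] (k t : ℕ) (G : SimpleGraph V) (s : Fin t → V) (P : Finset V),
    t + P.card + 4 ≤ k →
    ∃ s' : Fin (t + P.card) → V,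
      Ref (typ k G (t + P.card) s') (typ k G t s) ∧
      ∀ p ∈ P, ∀ y y' : V,
        typ k G (t + P.card) s' y y = typ k G (t + P.card) s' y' y' →
        typ k G t s p y = typ k G t s p y'

/-! ## Cutting and cells -/

/-- CUT. Proof. Claim for every `U : Finset W`: there is `X ⊆ U` with `|X| M ≤ 2|U|` such that for
`v ∈ U ∖ X` at most `M` vertices can be reached from `v` inside `U ∖ X`. Strong induction on `|U|`. If
no component of `Γ[U]` has more than `M` vertices: `X = ∅`. Otherwise take a connected subset `S`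
of exactly `M` vertices of such a component. The edges inside `S` are at least `M - 1`, so at most
`2M - 2(M-1) = 2` edges leave `S`: the set `B` of the neighbours of `S` in `U ∖ S` has at most `2`
elements. Apply the claim to `U ∖ (S ∪ B)`, `X := X' ∪ B`: `|X| M ≤ 2(|U| - M) + 2M`. -/
def StmtCUT : Prop :=
  ∀ (W : Type) [Fintype W] (Γ : SimpleGraph W) (M : ℕ), 1 ≤ M →
    (∀ v, Nat.card {w : W // Γ.Adj v w} ≤ 2) →
    ∃ X : Finset W, X.card * M ≤ 2 * Fintype.card W ∧
      ∀ v, v ∉ X →
        Nat.card {w : W // Relation.ReflTransGen (fun a b => Γ.Adj a b ∧ a ∉ X ∧ b ∉ X) v w} ≤ M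

/-- APP. Application of CUT to the complex fibres in `A`. Proof. `W` := the set of fibres (values
`c x x`) of complex `x ∈ A`, `Γ` := dependence (DEP: a well defined symmetric relation). Degrees
`≤ 2` by hypothesis. `P` := the union of the fibres in the set `X` of CUT:
`|P| ≤ C |X|`, `|X| M ≤ 2|W| ≤ 2|V|`. Elements of `T` in the last claim are in different fibres which
are reachable in `Γ - X` from the fibre of `x`. -/
def StmtAPP : Prop :=
  ∀ (V κ : Type) [Fintype V] (c : V → V → κ) (A : Finset V) (C M : ℕ), Coherent c →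
    Cl c A → 1 ≤ M → (∀ x ∈ A, Nat.card {y : V // c y y = c x x} ≤ C) →
    (∀ x ∈ A, ¬ Simple c x → ∀ g : Fin 3 → V,
      (∀ i, g i ∈ A ∧ ¬ Simple c (g i) ∧ Dep c x (g i)) →
      ∃ i j, i ≠ j ∧ c (g i) (g i) = c (g j) (g j)) →
    ∃ P : Finset V, P ⊆ A ∧ Cl c P ∧ (∀ p ∈ P, ¬ Simple c p) ∧
      P.card * M ≤ 2 * C * Fintype.card V ∧
      ∀ x ∈ A, x ∉ P → ¬ Simple c x → ∀ T : Finset V,
        (∀ y ∈ T, Relation.ReflTransGen (Cx c A P) x y) → Dif c T → T.card ≤ M

/-- EDG. Edges of `Hh`. Proof. `b ∈ A` as `Mn G c₀ a b`. If the `c₁`-fibres of `a`, `b` are different and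
not dependent then `c₁` is constant on the product of the `c₁`-fibres (DEP 3), so `G.Adj` is constant
on the product of the `c₂`-fibres, which are smaller: `Hom G c₂ a b`, a contradiction. `a ∉ P`: for
`p ∈ P`, `c₂ y y = c₂ p p` gives `c₁ p y = c₁ p p`, `y = p` by `diag`: so if `a ∈ P` (or `b ∈ P`) then
`{a}` is a `c₂`-fibre, and `Hom G c₂ a b`: for `b', b''` in the `c₂`-fibre of `b`, by CNT for
`c₂`, `(b',b')`, `(b'',b'')` there is `e` with `c₂ b'' (e w) = c₂ b' w`, `e a` is in the `c₂`-fibre of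
`a` (VAL 1), so `e a = a`, `c₂ b'' a = c₂ b' a`, `c₁ b'' a = c₁ b' a`, equal adjacency. -/
def StmtEDG : Prop :=
  ∀ (V κ₀ κ₁ κ₂ : Type) [Fintype V] (G : SimpleGraph V) (c₀ : V → V → κ₀) (c₁ : V → V → κ₁)
    (c₂ : V → V → κ₂) (A P : Finset V), Coherent c₁ → Coherent c₂ →
    Ref c₂ c₁ → Inv c₁ G.Adj → (∀ x y, Mn G c₀ x y → x ∈ A → y ∈ A) →
    (∀ p ∈ P, ∀ y y', c₂ y y = c₂ y' y' → c₁ p y = c₁ p y') →
    ∀ a b, a ∈ A → Hh G c₀ c₂ a b →
      b ∈ A ∧ a ∉ P ∧ b ∉ P ∧ (c₁ a a = c₁ b b ∨ Dep c₁ a b)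

/-- CMB. Sizes of the cells in `A`. Proof. `Z` := the set of `y` reachable from `x` (`R` is symmetric,
so it is also the set of the vertices reachable from any other element of `Z`). If `Z = {x}` the bound
is clear (`C ≥ 1`); otherwise all elements of `Z` are in `A ∖ P`. (a) `Z` contains a complex `x'` (its
fibre is complex): by induction along the `R`-walk from `x'`, every `y ∈ Z` satisfies: `y` is complex
and (`c y y = c x' x'` or `ReflTransGen (Cx c A P) x' y`), or `y` is simple and there is `w`, with this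
property (complex), with `Dep c w y`. Step `y → y'` with `y` simple, `w`: if `y'` is in the fibre
of `y` clear (DEP 2, 4); if `Dep c y y'`: either `y'` is in the fibre of `w`, or `Dep c w y'` by FSH 1
(`y` is simple, `Dep c w y`, `Dep c y' y`), so `Cx c A P w y'` if `y'` is complex. Step with `y` complex:
`Dep c y y'` or the same fibre. So `Z` meets at most `M` complex fibres (take one representative of each,
`x'` for the first) and at most `M K` simple ones. (b) all of `Z` is simple: every `y ∈ Z` is in the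
fibre of `x` or `Dep c x y` (induction, FSH 1): at most `K + 1` fibres. Each fibre has at most `C`
elements. -/
def StmtCMB : Prop :=
  ∀ (V κ : Type) [Fintype V] (c : V → V → κ) (R : V → V → Prop) (A P : Finset V)
    (C M K : ℕ), Coherent c → (∀ a b, R a b → R b a) → Cl c A → Cl c P →
    (∀ a b, a ∈ A → R a b → b ∈ A ∧ a ∉ P ∧ b ∉ P ∧ (c a a = c b b ∨ Dep c a b)) →
    (∀ x ∈ A, Nat.card {y : V // c y y = c x x} ≤ C) →
    (∀ x ∈ A, ∀ T : Finset V, (∀ y ∈ T, y ∈ A ∧ Dep c x y) → Dif c T → T.card ≤ K) →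
    (∀ x ∈ A, x ∉ P → ¬ Simple c x → ∀ T : Finset V,
      (∀ y ∈ T, Relation.ReflTransGen (Cx c A P) x y) → Dif c T → T.card ≤ M) →
    ∀ x ∈ A, Nat.card {y : V // Relation.ReflTransGen R x y} ≤ C * (M + M * K + K + 1)

/-! ## The theorem -/

/-- FIN. Every graph, once the first phase is done. `C := (4K²+1)^(2K)`, `L := C (M + M K + K + 1)`.
Proof. `c₀ := typ k G t₀ s₀`. `Γ₀` := the graph `Mn G c₀` (MNO), degrees `≤ 4K²` (DEG, MON), DIA: every
component or fibre has `≤ C` elements. `A` := the `x` whose `Γ₀`-component has `> C` elements (a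
union of `c₀`-fibres by RCH; closed under `Mn`; the fibres of its elements have `≤ C` elements).
GRA: `s₁`, `c₁`. KEY and NMD give the hypotheses of APP and CMB (with `K`). APP: `P`. ADD: `s₂`, `c₂`. CEL
with `E` := reachability of the graph `Hh G c₀ c₂` (an equivalence; `c₂`-invariant by RCH; classes in
`A`: EDG, CMB; classes outside `A`: inside `Γ₀`-components). Cross adjacency: `x, x1` and `z, z1` in the same
`c₂`-fibres, not `E x z`, not `E x1 z1`: if `Hom G c₂ x z` then equal adjacency; otherwise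
`¬ Mn G c₀ x z`, `¬ Mn G c₀ x1 z1`, MNO. -/
def StmtFIN : Prop :=
  ∀ (V : Type) [Fintype V] (k K M t₀ : ℕ) (G : SimpleGraph V) (s₀ : Fin t₀ → V), 1 ≤ K →
    1 ≤ M →
    (∀ x, Sq (typ k G t₀ s₀ x) Finset.univ + Num (typ k G t₀ s₀ x) Finset.univ <
        Sq (fib (typ k G t₀ s₀)) Finset.univ + Num (fib (typ k G t₀ s₀)) Finset.univ + K) →
    t₀ + Fintype.card V / 8 + Fintype.card V / K +
      2 * (4 * K ^ 2 + 1) ^ (2 * K) * Fintype.card V / M +
      (4 * K ^ 2 + 1) ^ (2 * K) * (M + M * K + K + 1) + 9 ≤ k →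
    Identifies k G

/-- WLE. The theorem. Proof. `K` and `M` large enough (depending on `ε`), GRZ, FIN. -/
def StmtWLE : Prop :=
  ∀ ε : ℝ, 0 < ε → ∃ N : ℕ, ∀ (V : Type) [Fintype V] (G : SimpleGraph V),
    N ≤ Fintype.card V →
    ∃ k : ℕ, (k : ℝ) ≤ (1 / 8 + ε) * (Fintype.card V : ℝ) ∧ Identifies k G

end Pool.Agent.WLE
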