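import Mathlib
import Pool.Agent.BRW.St
import Pool.Agent.BRW.MCnt
import Pool.Agent.BRW.MVal
import Pool.Agent.WLE.Defs
import Pool.Agent.WLE.St

set_option autoImplicit false

/-!
# The degree bound of the minority graph (module DEG)
-/

namespace Pool.Agent.WLE

open Pool.Agent.BRW

namespace DegAux

theorem num {a b : ℝ} (ha : 0 ≤ a) (hab : a ≤ b) :
    Real.sqrt (a + b) + Real.sqrt a / 2 ≤ Real.sqrt a + Real.sqrt b := by
  have hb : 0 ≤ b := ha.trans hab
  have h1 : Real.sqrt (a + b) ≤ Real.sqrt a / 2 + Real.sqrt b := by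
    apply Real.sqrt_le_iff.2
    refine ⟨by positivity, ?_⟩
    have h2 := Real.sq_sqrt ha
    have h3 := Real.sq_sqrt hb
    have h4 : Real.sqrt a ≤ Real.sqrt b := Real.sqrt_le_sqrt hab
    have h5 := Real.sqrt_nonneg a
    nlinarith [mul_le_mul_of_nonneg_left h4 h5]
  linarith

theorem sqrt_add {a b : ℝ} (ha : 0 ≤ a) (hb : 0 ≤ b) :
    Real.sqrt (a + b) ≤ Real.sqrt a + Real.sqrt b := by
  apply Real.sqrt_le_iff.2
  have h2 := Real.sq_sqrt ha
  have h3 := Real.sq_sqrt hb
  have h5 := Real.sqrt_nonneg a
  have h6 := Real.sqrt_nonneg b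
  refine ⟨by positivity, ?_⟩
  nlinarith [mul_nonneg h5 h6]

theorem sqrt_sum {ι : Type} (s : Finset ι) (a : ι → ℕ) :
    Real.sqrt ((∑ i ∈ s, a i : ℕ) : ℝ) ≤ ∑ i ∈ s, Real.sqrt (a i) := by
  classical
  induction s using Finset.induction_on with
  | empty => simp
  | insert i s hi ih =>
    rw [Finset.sum_insert hi, Finset.sum_insert hi]
    push_cast
    push_cast at ih
    have h := sqrt_add (a := (a i : ℝ)) (b := ∑ j ∈ s, (a j : ℝ)) (Nat.cast_nonneg _)
      (Finset.sum_nonneg fun j _ => Nat.cast_nonneg _)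
    linarith

open Classical in
/-- A union `S` of classes of `f`: the square roots of the sizes of its classes. -/
theorem parts {V κ : Type} [Fintype V] (f : V → κ) (S : Finset V)
    (hS : ∀ y y', f y = f y' → y ∈ S → y' ∈ S) :
    Real.sqrt (S.card : ℝ) ≤ ∑ j ∈ S.image f, Real.sqrt (cs f Finset.univ j) := by
  have h1 : S.card = ∑ j ∈ S.image f, cs f Finset.univ j := by
    rw [Finset.card_eq_sum_card_image f S]
    refine Finset.sum_congr rfl fun j hj => ?_
    unfold cs
    obtain ⟨y, hy, rfl⟩ := Finset.mem_image.1 hj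
    congr 1
    ext z
    simp only [Finset.mem_filter, Finset.mem_univ, true_and]
    exact ⟨fun h => h.2, fun h => ⟨hS y z h.symm hy, h⟩⟩
  rw [h1]
  exact sqrt_sum _ _

end DegAux

open DegAux

open Classical in
theorem deg (hLOC : StmtLOC) (hMNO : StmtMNO) : StmtDEG := by
  intro V κ _ G c K hc hInv x hx
  obtain ⟨hsym, hMinv, -, hmin⟩ := hMNO V κ G c hc hInv
  obtain ⟨hval, -⟩ := vals cnt V κ c hc
  -- row `x` refines the fibres
  have href : ∀ y y', c x y = c x y' → fib c y = fib c y' := fun y y' h => (hval x y x y' h).2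
  have hMx : ∀ y y', c x y = c x y' → (Mn G c x y ↔ Mn G c x y') := fun y y' h =>
    hMinv x y x y' h
  set N : Finset V := Finset.univ.filter (fun w => Mn G c x w) with hN
  set T : Finset κ := N.image (fib c) with hT
  have hTsub : T ⊆ Finset.univ.image (fib c) := Finset.image_subset_image (Finset.subset_univ _)
  set d : κ → ℕ := fun i => (N.filter (fun w => fib c w = i)).card with hd
  have hcard : Nat.card {y : V // Mn G c x y} = ∑ i ∈ T, d i := by
    rw [Nat.card_eq_fintype_card, Fintype.card_subtype, ← hN, hT, hd]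
    exact Finset.card_eq_sum_card_image (fib c) N
  -- the local change
  have hloc : ∀ i ∈ T, Real.sqrt (cs (fib c) Finset.univ i) + Real.sqrt (d i) / 2 ≤
      ∑ j ∈ (Finset.univ.filter (fun y => fib c y = i)).image (c x),
        Real.sqrt (cs (c x) Finset.univ j) := by
    intro i hi
    obtain ⟨y₀, hy₀, hy₀i⟩ := Finset.mem_image.1 hi
    set F : Finset V := Finset.univ.filter (fun y => fib c y = i) with hF
    set P : Finset V := N.filter (fun w => fib c w = i) with hP
    set Q : Finset V := F.filter (fun w => ¬ Mn G c x w) with hQ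
    have hPF : P = F.filter (fun w => Mn G c x w) := by
      ext w
      simp only [hP, hN, hF, Finset.mem_filter, Finset.mem_univ, true_and]
      tauto
    have hcardF : F.card = P.card + Q.card := by
      rw [hPF, hQ]
      exact (Finset.card_filter_add_card_filter_not (s := F) (fun w => Mn G c x w)).symm
    have hPQ : P.card ≤ Q.card := by
      have h := hmin x y₀
      have e1 : Nat.card {w : V // c w w = c y₀ y₀ ∧ Mn G c x w} = P.card := by
        rw [Nat.card_eq_fintype_card, Fintype.card_subtype]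
        congr 1
        ext w
        simp only [hP, hN, Finset.mem_filter, Finset.mem_univ, true_and]
        rw [← hy₀i]
        unfold fib
        tauto
      have e2 : Nat.card {w : V // c w w = c y₀ y₀ ∧ w ≠ x ∧ ¬ Mn G c x w} ≤ Q.card := by
        rw [Nat.card_eq_fintype_card, Fintype.card_subtype]
        apply Finset.card_le_card
        intro w
        simp only [hQ, hF, Finset.mem_filter, Finset.mem_univ, true_and]
        rw [← hy₀i]
        unfold fib
        tauto
      rw [e1] at h
      exact h.trans e2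
    have hPc : ∀ y y', c x y = c x y' → y ∈ P → y' ∈ P := by
      intro y y' h hy
      simp only [hP, hN, Finset.mem_filter, Finset.mem_univ, true_and] at hy ⊢
      exact ⟨(hMx y y' h).1 hy.1, (href y y' h).symm.trans hy.2⟩
    have hQc : ∀ y y', c x y = c x y' → y ∈ Q → y' ∈ Q := by
      intro y y' h hy
      simp only [hQ, hF, Finset.mem_filter, Finset.mem_univ, true_and] at hy ⊢
      exact ⟨(href y y' h).symm.trans hy.1, fun h' => hy.2 ((hMx y y' h).2 h')⟩
    have hFu : F = P ∪ Q := by
      rw [hPF, hQ]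
      exact (Finset.filter_union_filter_not_eq (fun w => Mn G c x w) F).symm
    have hdis : Disjoint (P.image (c x)) (Q.image (c x)) := by
      rw [Finset.disjoint_left]
      intro j hj hj'
      obtain ⟨y, hy, rfl⟩ := Finset.mem_image.1 hj
      obtain ⟨y', hy', h⟩ := Finset.mem_image.1 hj'
      have h1 := hPc y y' h.symm hy
      simp only [hP, hN, Finset.mem_filter, Finset.mem_univ, true_and] at h1
      simp only [hQ, Finset.mem_filter] at hy'
      exact hy'.2 h1.1
    have hFcs : cs (fib c) Finset.univ i = F.card := rfl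
    have hdi : d i = P.card := rfl
    rw [hFcs, hdi, hFu, Finset.image_union, Finset.sum_union hdis]
    have h1 := parts (c x) P hPc
    have h2 := parts (c x) Q hQc
    have h3 := num (a := (P.card : ℝ)) (b := (Q.card : ℝ)) (Nat.cast_nonneg _)
      (by exact_mod_cast hPQ)
    have h4 : ((P ∪ Q).card : ℝ) = (P.card : ℝ) + Q.card := by
      rw [← hFu, hcardF]
      push_cast
      ring
    rw [h4]
    linarith
  have hmain := (hLOC V κ κ (c x) (fib c) Finset.univ T href hTsub).2.2
    (fun i => Real.sqrt (d i) / 2) hloc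
  have hS : ∑ i ∈ T, Real.sqrt (d i) < 2 * K := by
    have h1 : ∑ i ∈ T, Real.sqrt (d i) / 2 < K := by linarith
    rw [← Finset.sum_div] at h1
    linarith
  have hfin : ((∑ i ∈ T, d i : ℕ) : ℝ) ≤ 4 * (K : ℝ) ^ 2 := by
    have h1 : Real.sqrt ((∑ i ∈ T, d i : ℕ) : ℝ) < 2 * K := lt_of_le_of_lt (sqrt_sum T d) hS
    have h2 := Real.sq_sqrt (Nat.cast_nonneg (α := ℝ) (∑ i ∈ T, d i))
    have h3 := Real.sqrt_nonneg ((∑ i ∈ T, d i : ℕ) : ℝ)
    nlinarith
  rw [hcard]
  exact_mod_cast hfin

end Pool.Agent.WLE
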