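import Pool.Agent.WLE.St

/-!
Dependent fibres are split (module WLE_NMD, helper53).
-/

set_option autoImplicit false

namespace Pool.Agent.WLE

open Pool.Agent.BRW

/-- the row of `x` refines the fibres -/
theorem row_fib {V κ : Type} [Finite V] {c : V → V → κ} (hc : Coherent c) {x y y' : V}
    (h : c x y = c x y') : c y y = c y' y' := by
  have h1 := hc.count x y x y' h (c x y) (c y y)
  have h2 : 0 < Nat.card {z : V // c x z = c x y ∧ c z y = c y y} := by
    rw [Nat.card_pos_iff]
    exact ⟨⟨⟨y, rfl, rfl⟩⟩, inferInstance⟩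
  rw [h1, Nat.card_pos_iff] at h2
  obtain ⟨⟨⟨z, -, hz⟩⟩, -⟩ := h2
  have e := hc.diag y z y' hz.symm
  rw [e] at hz
  exact hz.symm

theorem nmd (hLOC : StmtLOC) (_hDEP : StmtDEP) : StmtNMD := by
  classical
  intro V κ _ c A hc hA x _ T hT hD
  have hcard : (T.image (fun y => c y y)).card = T.card := by
    refine Finset.card_image_of_injOn ?_
    intro y hy y' hy' e
    by_contra hne
    exact hD y hy y' hy' hne e
  have hsub : T.image (fun y => c y y) ⊆ A.image (fib c) := by
    intro i hi
    obtain ⟨y, hy, rfl⟩ := Finset.mem_image.1 hi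
    exact Finset.mem_image.2 ⟨y, (hT y hy).1, rfl⟩
  have h := (hLOC V κ κ (c x) (fib c) A (T.image (fun y => c y y))
    (fun y y' e => row_fib hc e) (by convert hsub)).2.1 (fun _ => 1) (by
      intro i hi
      obtain ⟨y, hy, rfl⟩ := Finset.mem_image.1 hi
      obtain ⟨hyA, -, z, hz, hxz⟩ := hT y hy
      have hzA : z ∈ A := hA y z hz.symm hyA
      have : 1 < ((A.filter (fun w => fib c w = c y y)).image (c x)).card := by
        rw [Finset.one_lt_card]
        refine ⟨c x z, ?_, c x y, ?_, hxz⟩
        · exact Finset.mem_image.2 ⟨z, Finset.mem_filter.2 ⟨hzA, hz⟩, rfl⟩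
        · exact Finset.mem_image.2 ⟨y, Finset.mem_filter.2 ⟨hyA, rfl⟩, rfl⟩
      have h2 : 1 + 1 ≤ ((A.filter (fun w => fib c w = c y y)).image (c x)).card := this
      convert h2)
  simp only [Finset.sum_const, smul_eq_mul, mul_one] at h
  rw [hcard] at h
  exact h

end Pool.Agent.WLE
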