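import Mathlib
import Pool.Agent.WLE.St

set_option autoImplicit false

/-!
# Module LOC: local changes add up (helper17, for helper92)
-/

namespace Pool.Agent.WLE

open Pool.Agent.BRW

namespace MLoc

open Classical in
/-- The classes of `f` inside the class `i` of `g`. -/
noncomputable def blk {V κ κ' : Type} (f : V → κ) (g : V → κ') (A : Finset V) (i : κ') : Finset κ :=
  (A.filter (fun y => g y = i)).image f

open Classical in
theorem mem_blk {V κ κ' : Type} {f : V → κ} {g : V → κ'} {A : Finset V} {i : κ'} {j : κ} :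
    j ∈ blk f g A i ↔ ∃ y ∈ A, g y = i ∧ f y = j := by
  unfold blk
  simp only [Finset.mem_image, Finset.mem_filter, and_assoc]

open Classical in
theorem image_eq {V κ κ' : Type} (f : V → κ) (g : V → κ') (A : Finset V) :
    A.image f = (A.image g).biUnion (blk f g A) := by
  ext j
  simp only [Finset.mem_image, Finset.mem_biUnion, mem_blk]
  constructor
  · rintro ⟨y, hy, rfl⟩
    exact ⟨g y, ⟨y, hy, rfl⟩, y, hy, rfl, rfl⟩
  · rintro ⟨i, -, y, hy, -, rfl⟩
    exact ⟨y, hy, rfl⟩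

open Classical in
theorem disj {V κ κ' : Type} {f : V → κ} {g : V → κ'} (A : Finset V)
    (h : ∀ y y', f y = f y' → g y = g y') (i i' : κ') (hi : i ≠ i') :
    Disjoint (blk f g A i) (blk f g A i') := by
  rw [Finset.disjoint_left]
  intro j hj hj'
  obtain ⟨y, -, hy, hf⟩ := mem_blk.1 hj
  obtain ⟨y', -, hy', hf'⟩ := mem_blk.1 hj'
  exact hi (by rw [← hy, ← hy']; exact h y y' (hf.trans hf'.symm))

open Classical in
theorem sum_blk {V κ κ' M : Type} [AddCommMonoid M] {f : V → κ} {g : V → κ'} (A : Finset V)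
    (h : ∀ y y', f y = f y' → g y = g y') (F : κ → M) :
    ∑ j ∈ A.image f, F j = ∑ i ∈ A.image g, ∑ j ∈ blk f g A i, F j := by
  rw [image_eq f g A, Finset.sum_biUnion]
  intro i _ i' _ hi
  exact disj A h i i' hi

open Classical in
theorem cs_blk {V κ κ' : Type} {f : V → κ} {g : V → κ'} (A : Finset V)
    (h : ∀ y y', f y = f y' → g y = g y') (i : κ') :
    cs g A i = ∑ j ∈ blk f g A i, cs f A j := by
  unfold cs
  rw [Finset.card_eq_sum_card_image f (A.filter (fun y => g y = i))]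
  refine Finset.sum_congr rfl fun j hj => ?_
  congr 1
  ext y
  simp only [Finset.mem_filter]
  constructor
  · rintro ⟨⟨hy, -⟩, hf⟩
    exact ⟨hy, hf⟩
  · rintro ⟨hy, hf⟩
    obtain ⟨y', -, hg', hf'⟩ := mem_blk.1 hj
    exact ⟨⟨hy, by rw [h y y' (hf.trans hf'.symm), hg']⟩, hf⟩

theorem sub_two_sum {κ : Type} (B : Finset κ) (F : κ → ℕ) :
    ∑ j ∈ B, (F j - 2) ≤ (∑ j ∈ B, F j) - 2 := by
  classical
  induction B using Finset.induction_on with
  | empty => simp
  | insert a B ha ih =>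
    rw [Finset.sum_insert ha, Finset.sum_insert ha]
    omega

theorem sqrt_sum_le {κ : Type} (B : Finset κ) (F : κ → ℕ) :
    Real.sqrt ((∑ j ∈ B, F j : ℕ) : ℝ) ≤ ∑ j ∈ B, Real.sqrt (F j) := by
  classical
  induction B using Finset.induction_on with
  | empty => simp
  | insert a B ha ih =>
    rw [Finset.sum_insert ha, Finset.sum_insert ha, Nat.cast_add]
    have h1 : Real.sqrt ((F a : ℝ) + ((∑ j ∈ B, F j : ℕ) : ℝ)) ≤
        Real.sqrt (F a) + Real.sqrt ((∑ j ∈ B, F j : ℕ) : ℝ) := by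
      apply Real.sqrt_le_iff.2
      refine ⟨by positivity, ?_⟩
      have e1 : Real.sqrt (F a : ℝ) ^ 2 = F a := Real.sq_sqrt (Nat.cast_nonneg _)
      have e2 : Real.sqrt ((∑ j ∈ B, F j : ℕ) : ℝ) ^ 2 = ((∑ j ∈ B, F j : ℕ) : ℝ) :=
        Real.sq_sqrt (Nat.cast_nonneg _)
      have e3 : 0 ≤ Real.sqrt (F a : ℝ) * Real.sqrt ((∑ j ∈ B, F j : ℕ) : ℝ) := by positivity
      nlinarith
    linarith

/-- Adding up, one direction, in any ordered additive commutative monoid. -/
theorem add_up {κ' M : Type} [AddCommMonoid M] [PartialOrder M] [IsOrderedAddMonoid M]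
    (S T : Finset κ') (hT : T ⊆ S) (a b δ : κ' → M) (h1 : ∀ i ∈ T, a i + δ i ≤ b i)
    (h2 : ∀ i ∈ S, a i ≤ b i) : ∑ i ∈ S, a i + ∑ i ∈ T, δ i ≤ ∑ i ∈ S, b i := by
  classical
  rw [← Finset.sum_sdiff hT, ← Finset.sum_sdiff (f := b) hT, add_assoc, ← Finset.sum_add_distrib]
  refine add_le_add (Finset.sum_le_sum fun i hi => ?_) (Finset.sum_le_sum fun i hi => h1 i hi)
  exact h2 i (Finset.mem_sdiff.1 hi).1

end MLoc

open MLoc in
/-- **LOC.** -/
theorem loc : StmtLOC := by
  classical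
  intro V κ κ' _ f g A T h hT
  refine ⟨?_, ?_, ?_⟩
  · intro δ hδ
    unfold Phi
    have e := sum_blk A h (fun j => cs f A j - 2)
    have e' : ∑ i ∈ A.image g, ∑ j ∈ blk f g A i, (cs f A j - 2) + ∑ i ∈ T, δ i ≤
        ∑ i ∈ A.image g, (cs g A i - 2) := by
      refine add_up (A.image g) T ?_ _ _ δ ?_ ?_
      · exact hT
      · intro i hi
        exact hδ i hi
      · intro i _
        rw [cs_blk A h i]
        exact sub_two_sum _ _
    rw [← e] at e'
    exact e'
  · intro δ hδ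
    unfold Num
    have e := sum_blk A h (fun _ : κ => (1 : ℕ))
    have e' : ∑ i ∈ A.image g, 1 + ∑ i ∈ T, δ i ≤
        ∑ i ∈ A.image g, ∑ j ∈ blk f g A i, 1 := by
      refine add_up (A.image g) T ?_ _ _ δ ?_ ?_
      · exact hT
      · intro i hi
        rw [← Finset.card_eq_sum_ones]
        exact hδ i hi
      · intro i hi
        rw [← Finset.card_eq_sum_ones]
        obtain ⟨y, hy, rfl⟩ := Finset.mem_image.1 hi
        exact Finset.card_pos.2 ⟨f y, mem_blk.2 ⟨y, hy, rfl, rfl⟩⟩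
    rw [← e, ← Finset.card_eq_sum_ones, ← Finset.card_eq_sum_ones] at e'
    exact e'
  · intro δ hδ
    unfold Sq
    have e := sum_blk A h (fun j => Real.sqrt (cs f A j))
    have e' : ∑ i ∈ A.image g, Real.sqrt (cs g A i) + ∑ i ∈ T, δ i ≤
        ∑ i ∈ A.image g, ∑ j ∈ blk f g A i, Real.sqrt (cs f A j) := by
      refine add_up (A.image g) T ?_ _ _ δ ?_ ?_
      · exact hT
      · intro i hi
        exact hδ i hi
      · intro i _
        rw [cs_blk A h i]
        exact sqrt_sum_le _ _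
    rw [← e] at e'
    exact e'

end Pool.Agent.WLE
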