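import Mathlib
import Pool.Agent.WLE.St

set_option autoImplicit false

/-!
# Module APP: cutting the dependency graph of the complex fibres
-/

namespace Pool.Agent.WLE

open Pool.Agent.BRW

section APP

variable {V κ : Type}

open Classical in
/-- The complex fibres in `A`. -/
noncomputable def cxF (c : V → V → κ) (A : Finset V) : Finset κ :=
  (A.filter fun x => ¬ Simple c x).image fun x => c x x

theorem mem_cxF {c : V → V → κ} {A : Finset V} {i : κ} :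
    i ∈ cxF c A ↔ ∃ x, x ∈ A ∧ ¬ Simple c x ∧ c x x = i := by
  classical
  unfold cxF
  rw [Finset.mem_image]
  constructor
  · rintro ⟨x, hx, e⟩
    exact ⟨x, (Finset.mem_filter.1 hx).1, (Finset.mem_filter.1 hx).2, e⟩
  · rintro ⟨x, h1, h2, e⟩
    exact ⟨x, Finset.mem_filter.2 ⟨h1, h2⟩, e⟩

/-- Dependence of the complex fibres in `A`. -/
def cxG (c : V → V → κ) (A : Finset V) : SimpleGraph {i // i ∈ cxF c A} :=
  SimpleGraph.fromRel fun i j => ∃ x y : V, c x x = i.1 ∧ c y y = j.1 ∧ Dep c x y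

theorem cxG_adj [Finite V] (hDEP : StmtDEP) {c : V → V → κ} (hc : Coherent c) {A : Finset V}
    {i j : {i // i ∈ cxF c A}} :
    (cxG c A).Adj i j ↔ ∃ x y : V, c x x = i.1 ∧ c y y = j.1 ∧ Dep c x y := by
  unfold cxG
  rw [SimpleGraph.fromRel_adj]
  constructor
  · rintro ⟨-, h | ⟨x, y, hx, hy, h⟩⟩
    · exact h
    · exact ⟨y, x, hy, hx, (hDEP V κ c hc).1 x y h⟩
  · rintro ⟨x, y, hx, hy, h⟩
    refine ⟨fun e => h.1 ?_, Or.inl ⟨x, y, hx, hy, h⟩⟩
    rw [hx, hy, e]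

theorem cxG_deg [Finite V] (hDEP : StmtDEP) {c : V → V → κ} (hc : Coherent c) {A : Finset V}
    (h3 : ∀ x ∈ A, ¬ Simple c x → ∀ g : Fin 3 → V,
      (∀ i, g i ∈ A ∧ ¬ Simple c (g i) ∧ Dep c x (g i)) →
      ∃ i j, i ≠ j ∧ c (g i) (g i) = c (g j) (g j)) (v : {i // i ∈ cxF c A}) :
    Nat.card {w // (cxG c A).Adj v w} ≤ 2 := by
  classical
  by_contra hcon
  have h : 3 ≤ Nat.card {w // (cxG c A).Adj v w} := by omega
  have hne : Nonempty (Fin 3 ↪ {w // (cxG c A).Adj v w}) := by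
    apply Function.Embedding.nonempty_of_card_le
    rw [Fintype.card_fin, ← Nat.card_eq_fintype_card]
    exact h
  obtain ⟨φ⟩ := hne
  have hrep : ∀ w : {i // i ∈ cxF c A}, ∃ x, x ∈ A ∧ ¬ Simple c x ∧ c x x = w.1 :=
    fun w => mem_cxF.1 w.2
  choose rep r1 r2 r3 using hrep
  have hd : ∀ i, rep (φ i).1 ∈ A ∧ ¬ Simple c (rep (φ i).1) ∧ Dep c (rep v) (rep (φ i).1) := by
    intro i
    refine ⟨r1 _, r2 _, ?_⟩
    obtain ⟨x, y, hx, hy, h⟩ := (cxG_adj hDEP hc).1 (φ i).2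
    exact (hDEP V κ c hc).2.1 x y _ _ (hx.trans (r3 v).symm) (hy.trans (r3 _).symm) h
  obtain ⟨i, j, hij, e⟩ := h3 (rep v) (r1 v) (r2 v) (fun i => rep (φ i).1) hd
  apply hij
  apply φ.injective
  apply Subtype.ext
  apply Subtype.ext
  rw [← r3, ← r3]
  exact e

end APP

/-- APP. -/
theorem app (hCUT : StmtCUT) (hDEP : StmtDEP) : StmtAPP := by
  classical
  intro V κ _ c A C M hc hA hM hC h3
  obtain ⟨X, hX, hX2⟩ := hCUT {i // i ∈ cxF c A} (cxG c A) M hM (cxG_deg hDEP hc h3)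
  have hW : Fintype.card {i // i ∈ cxF c A} ≤ Fintype.card V := by
    rw [Fintype.card_coe]
    unfold cxF
    exact (Finset.card_image_le.trans (Finset.card_filter_le _ _)).trans (Finset.card_le_univ _)
  obtain ⟨P, hP⟩ : ∃ P : Finset V, ∀ x, x ∈ P ↔ x ∈ A ∧ ∃ w ∈ X, w.1 = c x x :=
    ⟨A.filter fun x => ∃ w ∈ X, w.1 = c x x, fun x => Finset.mem_filter⟩
  refine ⟨P, fun x hx => ((hP x).1 hx).1, ?_, ?_, ?_, ?_⟩
  · intro x y hxy hx
    obtain ⟨h1, w, hw, e⟩ := (hP x).1 hx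
    exact (hP y).2 ⟨hA x y hxy h1, w, hw, e.trans hxy⟩
  · intro p hp hs
    obtain ⟨h1, w, hw, e⟩ := (hP p).1 hp
    obtain ⟨x, -, hx2, hx3⟩ := mem_cxF.1 w.2
    exact hx2 ((hDEP V κ c hc).2.2.2 p x (e.symm.trans hx3.symm) hs)
  · have h1 : P ⊆ X.biUnion fun w => Finset.univ.filter fun y => c y y = w.1 := by
      intro x hx
      obtain ⟨-, w, hw, e⟩ := (hP x).1 hx
      exact Finset.mem_biUnion.2 ⟨w, hw, Finset.mem_filter.2 ⟨Finset.mem_univ _, e.symm⟩⟩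
    have h2 : P.card ≤ X.card * C := by
      refine (Finset.card_le_card h1).trans (Finset.card_biUnion_le_card_mul _ _ _ fun w _ => ?_)
      obtain ⟨x, hx1, -, hx3⟩ := mem_cxF.1 w.2
      have h4 := hC x hx1
      rw [hx3, Nat.card_eq_fintype_card, Fintype.card_subtype] at h4
      exact h4
    calc P.card * M ≤ X.card * C * M := Nat.mul_le_mul_right _ h2
      _ = C * (X.card * M) := by ring
      _ ≤ C * (2 * Fintype.card {i // i ∈ cxF c A}) := Nat.mul_le_mul_left _ hX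
      _ ≤ C * (2 * Fintype.card V) := Nat.mul_le_mul_left _ (Nat.mul_le_mul_left _ hW)
      _ = 2 * C * Fintype.card V := by ring
  · intro x hx hxP hxs T hT hdif
    have hv : c x x ∈ cxF c A := mem_cxF.2 ⟨x, hx, hxs, rfl⟩
    have hvX : (⟨c x x, hv⟩ : {i // i ∈ cxF c A}) ∉ X := fun h =>
      hxP ((hP x).2 ⟨hx, ⟨c x x, hv⟩, h, rfl⟩)
    have hcard := hX2 ⟨c x x, hv⟩ hvX
    have key : ∀ y, Relation.ReflTransGen (Cx c A P) x y → ∃ h : c y y ∈ cxF c A,
        Relation.ReflTransGen (fun a b => (cxG c A).Adj a b ∧ a ∉ X ∧ b ∉ X)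
          ⟨c x x, hv⟩ ⟨c y y, h⟩ := by
      intro y hy
      induction hy with
      | refl => exact ⟨hv, Relation.ReflTransGen.refl⟩
      | tail h1 h2 ih =>
        rename_i b d
        obtain ⟨hb, ih⟩ := ih
        obtain ⟨hdep, -, hds, hbA, hdA, hbP, hdP⟩ := h2
        have hd : c d d ∈ cxF c A := mem_cxF.2 ⟨d, hdA, hds, rfl⟩
        refine ⟨hd, ih.tail ⟨(cxG_adj hDEP hc).2 ⟨b, d, rfl, rfl, hdep⟩, fun h => ?_, fun h => ?_⟩⟩
        · exact hbP ((hP b).2 ⟨hbA, _, h, rfl⟩)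
        · exact hdP ((hP d).2 ⟨hdA, _, h, rfl⟩)
    choose k1 k2 using key
    have h5 : T.card ≤ Nat.card {w : {i // i ∈ cxF c A} //
        Relation.ReflTransGen (fun a b => (cxG c A).Adj a b ∧ a ∉ X ∧ b ∉ X)
          ⟨c x x, hv⟩ w} := by
      have h6 : Nat.card {y // y ∈ T} = T.card := by
        rw [Nat.card_eq_fintype_card, Fintype.card_coe]
      rw [← h6]
      refine Nat.card_le_card_of_injective
        (fun y : {y // y ∈ T} => ⟨⟨c y.1 y.1, k1 y.1 (hT y.1 y.2)⟩, k2 y.1 (hT y.1 y.2)⟩) ?_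
      intro y y' e
      have e1 : c y.1 y.1 = c y'.1 y'.1 := congrArg (fun u => u.1.1) e
      by_contra hne
      exact hdif y.1 y.2 y'.1 y'.2 (fun h => hne (Subtype.ext h)) e1
    exact h5.trans hcard

end Pool.Agent.WLE
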