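import Mathlib
import Pool.Agent.WLE.Defs
import Pool.Agent.WLE.St

set_option autoImplicit false

/-!
# Module CUT: graphs of maximum degree two are cut into small pieces
-/

namespace Pool.Agent.WLE

open Classical

/-- Adjacent inside `Y`. -/
def CutR {W : Type} (Γ : SimpleGraph W) (Y : Finset W) (a b : W) : Prop :=
  Γ.Adj a b ∧ a ∈ Y ∧ b ∈ Y

theorem cut_card {W : Type} [Fintype W] (p : W → Prop) :
    Nat.card {w : W // p w} = (Finset.univ.filter p).card := by
  rw [Nat.card_eq_fintype_card, Fintype.card_subtype]

theorem cut_grow {W : Type} [Fintype W] (Γ : SimpleGraph W)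
    (hdeg : ∀ v, (Finset.univ.filter (fun w => Γ.Adj v w)).card ≤ 2) (U : Finset W) (v : W)
    (hv : v ∈ U) (k : ℕ) (hk : 1 ≤ k) :
    k < Nat.card {w : W // Relation.ReflTransGen (CutR Γ U) v w} →
    ∃ S : Finset W, S ⊆ U ∧ S.card = k ∧ v ∈ S ∧
      ∑ s ∈ S, (Finset.univ.filter (fun w => Γ.Adj s w ∧ w ∉ S)).card ≤ 2 := by
  induction k, hk using Nat.le_induction with
  | base =>
    intro _
    refine ⟨{v}, by simpa using hv, by simp, by simp, ?_⟩
    rw [Finset.sum_singleton]
    refine le_trans (Finset.card_le_card ?_) (hdeg v)
    intro w hw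
    simp only [Finset.mem_filter, Finset.mem_univ, true_and] at hw ⊢
    exact hw.1
  | succ k hk ih =>
    intro hc
    obtain ⟨S, hSU, hSk, hvS, hE⟩ := ih (by omega)
    -- an edge leaving S
    have hex : ∃ a ∈ S, ∃ w, w ∉ S ∧ CutR Γ U a w := by
      by_contra hno
      push Not at hno
      have hall : ∀ w, Relation.ReflTransGen (CutR Γ U) v w → w ∈ S := by
        intro w hw
        induction hw with
        | refl => exact hvS
        | tail _ h2 ih2 =>
          by_contra hcon
          exact hno _ ih2 _ hcon h2
      have hle : Nat.card {w : W // Relation.ReflTransGen (CutR Γ U) v w} ≤ S.card := by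
        rw [cut_card]
        apply Finset.card_le_card
        intro w hw
        simp only [Finset.mem_filter, Finset.mem_univ, true_and] at hw
        exact hall w hw
      omega
    obtain ⟨a, haS, w, hwS, haw, haU, hwU⟩ := hex
    refine ⟨insert w S, ?_, ?_, Finset.mem_insert_of_mem hvS, ?_⟩
    · intro x hx
      rcases Finset.mem_insert.1 hx with rfl | hx
      · exact hwU
      · exact hSU hx
    · rw [Finset.card_insert_of_notMem hwS, hSk]
    · rw [Finset.sum_insert hwS]
      have h1 : (Finset.univ.filter (fun x => Γ.Adj w x ∧ x ∉ insert w S)).card ≤ 1 := by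
        have hsub : (Finset.univ.filter (fun x => Γ.Adj w x ∧ x ∉ insert w S)) ⊆
            (Finset.univ.filter (fun x => Γ.Adj w x)).erase a := by
          intro x hx
          simp only [Finset.mem_filter, Finset.mem_univ, true_and, Finset.mem_insert,
            not_or] at hx
          rw [Finset.mem_erase]
          refine ⟨?_, by simpa using hx.1⟩
          rintro rfl
          exact hx.2.2 haS
        have ha : a ∈ Finset.univ.filter (fun x => Γ.Adj w x) := by
          simpa using haw.symm
        have h2 := Finset.card_le_card hsub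
        rw [Finset.card_erase_of_mem ha] at h2
        have h3 := hdeg w
        omega
      have h2 : ∀ s ∈ S, (Finset.univ.filter (fun x => Γ.Adj s x ∧ x ∉ insert w S)).card ≤
          (Finset.univ.filter (fun x => Γ.Adj s x ∧ x ∉ S)).card := by
        intro s _
        apply Finset.card_le_card
        intro x hx
        simp only [Finset.mem_filter, Finset.mem_univ, true_and, Finset.mem_insert,
          not_or] at hx ⊢
        exact ⟨hx.1, hx.2.2⟩
      have h3 : (Finset.univ.filter (fun x => Γ.Adj a x ∧ x ∉ insert w S)).card <
          (Finset.univ.filter (fun x => Γ.Adj a x ∧ x ∉ S)).card := by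
        apply Finset.card_lt_card
        rw [Finset.ssubset_iff_of_subset]
        · refine ⟨w, ?_, ?_⟩
          · simp only [Finset.mem_filter, Finset.mem_univ, true_and]
            exact ⟨haw, hwS⟩
          · simp
        · intro x hx
          simp only [Finset.mem_filter, Finset.mem_univ, true_and, Finset.mem_insert,
            not_or] at hx ⊢
          exact ⟨hx.1, hx.2.2⟩
      have h4 : ∑ s ∈ S, (Finset.univ.filter (fun x => Γ.Adj s x ∧ x ∉ insert w S)).card <
          ∑ s ∈ S, (Finset.univ.filter (fun x => Γ.Adj s x ∧ x ∉ S)).card :=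
        Finset.sum_lt_sum h2 ⟨a, haS, h3⟩
      omega

theorem cut_aux {W : Type} [Fintype W] (Γ : SimpleGraph W) (M : ℕ) (hM : 1 ≤ M)
    (hdeg : ∀ v, (Finset.univ.filter (fun w => Γ.Adj v w)).card ≤ 2) :
    ∀ n : ℕ, ∀ U : Finset W, U.card ≤ n →
      ∃ Y : Finset W, Y ⊆ U ∧ (U \ Y).card * M ≤ 2 * U.card ∧
        ∀ v ∈ Y, Nat.card {w : W // Relation.ReflTransGen (CutR Γ Y) v w} ≤ M := by
  intro n
  induction n with
  | zero =>
    intro U hU
    have : U = ∅ := Finset.card_eq_zero.1 (Nat.le_zero.1 hU)
    subst this
    exact ⟨∅, le_rfl, by simp, by simp⟩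
  | succ n ih =>
    intro U hU
    by_cases h : ∃ v ∈ U, M < Nat.card {w : W // Relation.ReflTransGen (CutR Γ U) v w}
    · obtain ⟨v, hv, hc⟩ := h
      obtain ⟨S, hSU, hSM, hvS, hE⟩ := cut_grow Γ hdeg U v hv M hM hc
      set B : Finset W := U.filter (fun w => w ∉ S ∧ ∃ s ∈ S, Γ.Adj s w) with hB
      have hBcard : B.card ≤ 2 := by
        have hsub : B ⊆ S.biUnion
            (fun s => Finset.univ.filter (fun w => Γ.Adj s w ∧ w ∉ S)) := by
          intro x hx
          rw [hB, Finset.mem_filter] at hx
          obtain ⟨_, hxS, s, hs, hsx⟩ := hx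
          rw [Finset.mem_biUnion]
          exact ⟨s, hs, by simp [hsx, hxS]⟩
        exact (Finset.card_le_card hsub).trans (Finset.card_biUnion_le.trans hE)
      set U' : Finset W := (U \ S) \ B with hU'
      have hBsub : B ⊆ U \ S := by
        intro x hx
        rw [hB, Finset.mem_filter] at hx
        exact Finset.mem_sdiff.2 ⟨hx.1, hx.2.1⟩
      have hcU : U'.card + S.card + B.card = U.card := by
        have e1 : U'.card + B.card = (U \ S).card := by
          rw [hU']; exact Finset.card_sdiff_add_card_eq_card hBsub
        have e2 : (U \ S).card + S.card = U.card := Finset.card_sdiff_add_card_eq_card hSU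
        omega
      obtain ⟨Y', hY'U, hY'c, hY'r⟩ := ih U' (by omega)
      refine ⟨Y' ∪ S, ?_, ?_, ?_⟩
      · intro x hx
        rcases Finset.mem_union.1 hx with hx | hx
        · have := hY'U hx
          rw [hU', Finset.mem_sdiff, Finset.mem_sdiff] at this
          exact this.1.1
        · exact hSU hx
      · have hsub : U \ (Y' ∪ S) ⊆ (U' \ Y') ∪ B := by
          intro x hx
          rw [Finset.mem_sdiff, Finset.mem_union, not_or] at hx
          rw [Finset.mem_union, Finset.mem_sdiff, hU', Finset.mem_sdiff, Finset.mem_sdiff]
          by_cases hxB : x ∈ B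
          · exact Or.inr hxB
          · exact Or.inl ⟨⟨⟨hx.1, hx.2.2⟩, hxB⟩, hx.2.1⟩
        have hle : (U \ (Y' ∪ S)).card ≤ (U' \ Y').card + 2 :=
          (Finset.card_le_card hsub).trans ((Finset.card_union_le _ _).trans (by omega))
        calc (U \ (Y' ∪ S)).card * M ≤ ((U' \ Y').card + 2) * M := Nat.mul_le_mul_right _ hle
          _ = (U' \ Y').card * M + 2 * M := by ring
          _ ≤ 2 * U'.card + 2 * M := by omega
          _ ≤ 2 * U.card := by omega
      · -- reachability
        have key : ∀ a b, CutR Γ (Y' ∪ S) a b → (a ∈ S ↔ b ∈ S) := by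
          have one : ∀ a b, CutR Γ (Y' ∪ S) a b → a ∈ S → b ∈ S := by
            rintro a b ⟨hab, _, hb⟩ ha
            rcases Finset.mem_union.1 hb with hb | hb
            · by_contra hbS
              have hb' := hY'U hb
              rw [hU', Finset.mem_sdiff, Finset.mem_sdiff] at hb'
              exact hb'.2 (by
                rw [hB, Finset.mem_filter]
                exact ⟨hb'.1.1, hbS, a, ha, hab⟩)
            · exact hb
          intro a b hab
          exact ⟨one a b hab, one b a ⟨hab.1.symm, hab.2.2, hab.2.1⟩⟩
        intro v hv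
        by_cases hvS' : v ∈ S
        · have hall : ∀ w, Relation.ReflTransGen (CutR Γ (Y' ∪ S)) v w → w ∈ S := by
            intro w hw
            induction hw with
            | refl => exact hvS'
            | tail _ h2 ih2 => exact (key _ _ h2).1 ih2
          rw [cut_card, ← hSM]
          apply Finset.card_le_card
          intro w hw
          simp only [Finset.mem_filter, Finset.mem_univ, true_and] at hw
          exact hall w hw
        · have hvY : v ∈ Y' := by
            rcases Finset.mem_union.1 hv with h1 | h1
            · exact h1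
            · exact absurd h1 hvS'
          have hall : ∀ w, Relation.ReflTransGen (CutR Γ (Y' ∪ S)) v w →
              w ∉ S ∧ Relation.ReflTransGen (CutR Γ Y') v w := by
            intro w hw
            induction hw with
            | refl => exact ⟨hvS', Relation.ReflTransGen.refl⟩
            | tail _ h2 ih2 =>
              have h3 := fun hc => ih2.1 ((key _ _ h2).2 hc)
              refine ⟨h3, ih2.2.tail ⟨h2.1, ?_, ?_⟩⟩
              · rcases Finset.mem_union.1 h2.2.1 with h4 | h4
                · exact h4
                · exact absurd h4 ih2.1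
              · rcases Finset.mem_union.1 h2.2.2 with h4 | h4
                · exact h4
                · exact absurd h4 h3
          refine le_trans ?_ (hY'r v hvY)
          rw [cut_card, cut_card]
          apply Finset.card_le_card
          intro w hw
          simp only [Finset.mem_filter, Finset.mem_univ, true_and] at hw ⊢
          exact (hall w hw).2
    · push Not at h
      exact ⟨U, le_rfl, by simp, h⟩

theorem cut : StmtCUT := by
  intro W _ Γ M hM hdeg
  have hdeg' : ∀ v, (Finset.univ.filter (fun w => Γ.Adj v w)).card ≤ 2 := by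
    intro v
    rw [← cut_card]
    exact hdeg v
  obtain ⟨Y, _, hYc, hYr⟩ := cut_aux Γ M hM hdeg' _ Finset.univ le_rfl
  refine ⟨Finset.univ \ Y, by simpa using hYc, ?_⟩
  intro v hv
  have hvY : v ∈ Y := by simpa using hv
  refine le_trans (le_of_eq ?_) (hYr v hvY)
  have hrel : (fun a b => Γ.Adj a b ∧ a ∉ Finset.univ \ Y ∧ b ∉ Finset.univ \ Y) =
      CutR Γ Y := by
    funext a b
    simp [CutR]
  rw [hrel]

end Pool.Agent.WLE
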