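import Pool.Agent.BRW.MCnt
import Pool.Agent.BRW.MVal
import Pool.Agent.WLE.St

set_option autoImplicit false

/-!
# Dependence of fibres (module DEP)
-/

namespace Pool.Agent.WLE

open Pool.Agent.BRW

/-- DEP: dependence is symmetric and depends only on the fibres; independent fibres are joined by
one colour. -/
theorem dep : StmtDEP := by
  intro V κ _ c hc
  have hval := (vals cnt V κ c hc).1
  -- the third claim
  have h3 : ∀ x y, c x x ≠ c y y → ¬ Dep c x y → ∀ x' y', c x' x' = c x x → c y' y' = c y y →
      c x' y' = c x y := by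
    intro x y hxy hnd x' y' hx' hy'
    obtain ⟨e, he⟩ := cnt V κ c hc x x x' x' hx'.symm
    have h1 : c x' y' = c x (e.symm y') := by
      have h := (he (e.symm y')).1
      rwa [e.apply_symm_apply] at h
    have h2 : c (e.symm y') (e.symm y') = c y y := by
      rw [← (hval x' y' x (e.symm y') h1).2, hy']
    rw [h1]
    by_contra hne
    exact hnd ⟨hxy, e.symm y', h2, hne⟩
  refine ⟨?_, ?_, h3, ?_⟩
  · rintro x y ⟨hxy, z, hz, hne⟩
    by_contra hnd
    have h := h3 y x (Ne.symm hxy) hnd z x hz rfl
    exact hne (hc.symm z x y x h)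
  · rintro x y x' y' hx hy ⟨hxy, z, hz, hne⟩
    by_contra hnd
    have hxy' : c x' x' ≠ c y' y' := by
      rw [← hx, ← hy]
      exact hxy
    have ha := h3 x' y' hxy' hnd x z hx (hz.trans hy)
    have hb := h3 x' y' hxy' hnd x y hx hy
    exact hne (ha.trans hb.symm)
  · intro u u' huu hs x y x' y' h1 h2 h3' h4 h5 h6
    exact hs x y x' y' (h1.trans huu.symm) (h2.trans huu.symm) (h3'.trans huu.symm)
      (h4.trans huu.symm) h5 h6

end Pool.Agent.WLE
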