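import Mathlib
import Pool.Agent.BRW.MCnt
import Pool.Agent.BRW.MVal
import Pool.Agent.WLE.St

set_option autoImplicit false

/-!
# Fisher type double counting (module FSH)

The hypothesis on `StmtDEP` is not used.
-/

namespace Pool.Agent.WLE

open Pool.Agent.BRW

theorem fsh (_hDEP : StmtDEP) : StmtFSH := by
  intro V κ _ c hc x u hS hD
  classical
  haveI := Fintype.ofFinite V
  obtain ⟨_, u2, hu2, hne⟩ := hD
  have hends : ∀ x y x' y' : V, c x y = c x' y' → c x x = c x' x' ∧ c y y = c y' y' :=
    (vals cnt V κ c hc).1
  -- the two kinds of sets
  have hN : ∀ v v' : V, c v v = c v' v' →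
      (Finset.univ.filter fun w => c w v = c x u).card =
        (Finset.univ.filter fun w => c w v' = c x u).card := by
    intro v v' h
    obtain ⟨e, he⟩ := cnt V κ c hc v v v' v' h
    refine Finset.card_equiv e fun w => ?_
    simp only [Finset.mem_filter, Finset.mem_univ, true_and, (he w).2]
  have hN2 : ∀ v v' v1 v1' : V, c v v' = c v1 v1' →
      (Finset.univ.filter fun w => c w v = c x u ∧ c w v' = c x u).card =
        (Finset.univ.filter fun w => c w v1 = c x u ∧ c w v1' = c x u).card := by
    intro v v' v1 v1' h
    obtain ⟨e, he⟩ := cnt V κ c hc v v' v1 v1' h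
    refine Finset.card_equiv e fun w => ?_
    have h1 : c (e w) v1 = c w v := hc.symm _ _ _ _ (he w).1
    simp only [Finset.mem_filter, Finset.mem_univ, true_and, (he w).2, h1]
  have hsym : ∀ v v' : V, (Finset.univ.filter fun w => c w v = c x u ∧ c w v' = c x u) =
      Finset.univ.filter fun w => c w v' = c x u ∧ c w v = c x u := by
    intro v v'
    ext w
    simp only [Finset.mem_filter, Finset.mem_univ, true_and]
    exact and_comm
  have huu2 : u ≠ u2 := fun h => hne (by rw [← h])
  have hlam : ∀ v v' : V, c v v = c u u → c v' v' = c u u → v ≠ v' →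
      (Finset.univ.filter fun w => c w v = c x u ∧ c w v' = c x u).card =
        (Finset.univ.filter fun w => c w u = c x u ∧ c w u2 = c x u).card := by
    intro v v' hv hv' hvv
    rcases hS v v' u u2 hv hv' rfl hu2 hvv huu2 with h | h
    · exact hN2 _ _ _ _ h
    · rw [hsym u u2]
      exact hN2 _ _ _ _ h
  have hlt : (Finset.univ.filter fun w => c w u = c x u ∧ c w u2 = c x u).card <
      (Finset.univ.filter fun w => c w u = c x u).card := by
    refine Finset.card_lt_card ⟨fun w hw => ?_, fun hsub => ?_⟩
    · simp only [Finset.mem_filter, Finset.mem_univ, true_and] at hw ⊢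
      exact hw.1
    · have h1 : x ∈ Finset.univ.filter fun w => c w u = c x u := by simp
      have h2 := hsub h1
      simp only [Finset.mem_filter, Finset.mem_univ, true_and] at h2
      exact hne h2
  refine ⟨?_, ?_⟩
  · intro y hy hxy
    by_contra hnd
    obtain ⟨_, z, hz, hzy⟩ := hy
    -- row `x` is constant on the fibre of `y`
    have hrow : ∀ g, c g g = c y y → c x g = c x y := by
      intro g hg
      by_contra h
      exact hnd ⟨hxy, g, hg, h⟩
    have hcol : ∀ w, c w w = c x x → c w y = c x y := by
      intro w hw
      obtain ⟨e, he⟩ := cnt V κ c hc x x w w hw.symm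
      have h1 := (he (e.symm y)).1
      rw [e.apply_symm_apply] at h1
      rw [h1]
      exact hrow _ (hends _ _ _ _ h1).2.symm
    have hzu : c z y ≠ c u y := fun h => hzy (hc.symm _ _ _ _ h)
    -- the number `nu`
    have hnu : ∀ w, c w w = c x x →
        (Finset.univ.filter fun v => c v y = c u y ∧ c w v = c x u).card =
          (Finset.univ.filter fun v => c v y = c u y ∧ c x v = c x u).card := by
      intro w hw
      obtain ⟨e, he⟩ := cnt V κ c hc w y x y (hcol w hw)
      refine Finset.card_equiv e fun v => ?_
      simp only [Finset.mem_filter, Finset.mem_univ, true_and, (he v).1, (he v).2]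
    -- double counting
    have hdc : ∀ u0 : V,
        (Finset.univ.filter fun w => c w u0 = c x u).card *
          (Finset.univ.filter fun v => c v y = c u y ∧ c x v = c x u).card =
        ∑ v ∈ Finset.univ.filter (fun v => c v y = c u y),
          (Finset.univ.filter fun w => c w u0 = c x u ∧ c w v = c x u).card := by
      intro u0
      have h1 := Finset.sum_card_bipartiteAbove_eq_sum_card_bipartiteBelow
        (s := Finset.univ.filter fun w => c w u0 = c x u)
        (t := Finset.univ.filter fun v => c v y = c u y) (fun w v => c w v = c x u)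
      have h2 : ∀ w ∈ Finset.univ.filter (fun w => c w u0 = c x u),
          ((Finset.univ.filter fun v => c v y = c u y).bipartiteAbove
            (fun w v => c w v = c x u) w).card =
          (Finset.univ.filter fun v => c v y = c u y ∧ c x v = c x u).card := by
        intro w hw
        simp only [Finset.mem_filter, Finset.mem_univ, true_and] at hw
        rw [← hnu w (hends _ _ _ _ hw).1, Finset.bipartiteAbove, Finset.filter_filter]
      have h3 : ∀ v ∈ Finset.univ.filter (fun v => c v y = c u y),
          ((Finset.univ.filter fun w => c w u0 = c x u).bipartiteBelow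
            (fun w v => c w v = c x u) v).card =
          (Finset.univ.filter fun w => c w u0 = c x u ∧ c w v = c x u).card := by
        intro v _
        rw [Finset.bipartiteBelow, Finset.filter_filter]
      rw [Finset.sum_congr rfl h2, Finset.sum_congr rfl h3, Finset.sum_const, smul_eq_mul] at h1
      exact h1
    have hB : ∀ v, c v y = c u y → c v v = c u u := fun v hv => (hends _ _ _ _ hv).1
    have hin : u ∈ Finset.univ.filter (fun v => c v y = c u y) := by simp
    -- `u0 = z`
    have e1 := hdc z
    rw [Finset.sum_congr rfl (g := fun _ =>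
      (Finset.univ.filter fun w => c w u = c x u ∧ c w u2 = c x u).card) (by
        intro v hv
        simp only [Finset.mem_filter, Finset.mem_univ, true_and] at hv
        refine hlam z v hz (hB v hv) fun h => hzu ?_
        rw [h]
        exact hv), Finset.sum_const, smul_eq_mul, hN z u hz] at e1
    -- `u0 = u`
    have e2 := hdc u
    rw [← Finset.add_sum_erase _ _ hin, Finset.sum_congr (g := fun _ =>
      (Finset.univ.filter fun w => c w u = c x u ∧ c w u2 = c x u).card) rfl (by
        intro v hv
        rw [Finset.mem_erase] at hv
        have hv2 := hv.2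
        simp only [Finset.mem_filter, Finset.mem_univ, true_and] at hv2
        exact hlam u v rfl (hB v hv2) hv.1.symm), Finset.sum_const, smul_eq_mul,
      Finset.card_erase_of_mem hin] at e2
    have e3 : (Finset.univ.filter fun w => c w u = c x u ∧ c w u = c x u) =
        Finset.univ.filter fun w => c w u = c x u := by
      ext w
      simp
    rw [e3] at e2
    have hpos : 1 ≤ (Finset.univ.filter (fun v => c v y = c u y)).card :=
      Finset.card_pos.2 ⟨u, hin⟩
    obtain ⟨m, hm⟩ := Nat.exists_eq_add_of_le hpos
    rw [hm] at e1 e2
    rw [Nat.add_sub_cancel_left] at e2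
    rw [e1, add_mul, one_mul] at e2
    omega
  · intro v v' hv hv' hvv
    have h1 := hlam v v' hv hv' hvv
    have h2 := hN v u hv
    have h3 : (Finset.univ.filter fun w => c w v = c x u ∧ c w v' = c x u).card <
        (Finset.univ.filter fun w => c w v = c x u).card := by
      rw [h1, h2]
      exact hlt
    obtain ⟨w, hw, hw'⟩ := Finset.exists_mem_notMem_of_card_lt_card h3
    simp only [Finset.mem_filter, Finset.mem_univ, true_and, not_and] at hw hw'
    exact ⟨w, (hends _ _ _ _ hw).1, fun h => hw' hw (by rw [← h]; exact hw)⟩

end Pool.Agent.WLE
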