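import Mathlib
import Pool.Agent.BRW.St
import Pool.Agent.BRW.MCnt
import Pool.Agent.BRW.MVal
import Pool.Agent.WLE.St

set_option autoImplicit false

/-!
# Module KEY: a vertex of a complex fibre that depends on three complex fibres

Pebbling such a vertex decreases the potential by at least `8`.
-/

namespace Pool.Agent.WLE

open Pool.Agent.BRW

open Classical in
/-- Arithmetic of one fibre. -/
theorem key_sum {ι : Type} (J : Finset ι) (s : ι → ℕ) (h1 : ∀ j ∈ J, 1 ≤ s j)
    (h : (3 ≤ J.card ∧ 4 ≤ ∑ j ∈ J, s j) ∨ (2 ≤ J.card ∧ ∀ j ∈ J, 2 ≤ s j)) :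
    ∑ j ∈ J, (s j - 2) + 4 ≤ ∑ j ∈ J, s j := by
  rcases h with ⟨h3, h4⟩ | ⟨h2, hs⟩
  · by_cases hex : ∃ j ∈ J, 2 ≤ s j
    · obtain ⟨j0, hj0, h5⟩ := hex
      have h6 : ∑ j ∈ J, ((s j - 2) + 1 + if j = j0 then 1 else 0) ≤ ∑ j ∈ J, s j := by
        refine Finset.sum_le_sum fun j hj => ?_
        have := h1 j hj
        split_ifs with h7
        · subst h7
          omega
        · omega
      rw [Finset.sum_add_distrib, Finset.sum_add_distrib, Finset.sum_const, smul_eq_mul, mul_one,
        Finset.sum_ite_eq' J j0, if_pos hj0] at h6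
      omega
    · push Not at hex
      have h6 : ∑ j ∈ J, (s j - 2) = 0 := by
        refine Finset.sum_eq_zero fun j hj => ?_
        have := hex j hj
        omega
      omega
  · have h6 : ∑ j ∈ J, ((s j - 2) + 2) ≤ ∑ j ∈ J, s j := by
      refine Finset.sum_le_sum fun j hj => ?_
      have := hs j hj
      omega
    rw [Finset.sum_add_distrib, Finset.sum_const, smul_eq_mul] at h6
    omega

open Classical in
/-- The local change on one class `i` of `g`. -/
theorem key_fib {V κ κ' : Type} [Fintype V] (f : V → κ) (g : V → κ') (A : Finset V) (i : κ')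
    (href : ∀ y y', f y = f y' → g y = g y')
    (hcase : (3 ≤ ((A.filter (fun y => g y = i)).image f).card ∧
        4 ≤ (A.filter (fun y => g y = i)).card) ∨
      (2 ≤ ((A.filter (fun y => g y = i)).image f).card ∧
        ∀ y ∈ A.filter (fun y => g y = i), ∃ y' ∈ A, y' ≠ y ∧ f y' = f y)) :
    (∑ j ∈ (A.filter (fun y => g y = i)).image f, (cs f A j - 2)) + 2 ≤ cs g A i - 2 := by
  have hcs : ∀ j ∈ (A.filter (fun y => g y = i)).image f,
      cs f A j = ((A.filter (fun y => g y = i)).filter (fun y => f y = j)).card := by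
    intro j hj
    obtain ⟨y0, hy0, rfl⟩ := Finset.mem_image.1 hj
    unfold cs
    congr 1
    ext y
    simp only [Finset.mem_filter] at hy0 ⊢
    constructor
    · rintro ⟨h1, h2⟩
      exact ⟨⟨h1, (href y y0 h2).trans hy0.2⟩, h2⟩
    · rintro ⟨⟨h1, -⟩, h2⟩
      exact ⟨h1, h2⟩
  have hsum : ∑ j ∈ (A.filter (fun y => g y = i)).image f, cs f A j =
      (A.filter (fun y => g y = i)).card := by
    rw [Finset.card_eq_sum_card_image f (A.filter (fun y => g y = i))]
    exact Finset.sum_congr rfl hcs
  have hone : ∀ j ∈ (A.filter (fun y => g y = i)).image f, 1 ≤ cs f A j := by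
    intro j hj
    obtain ⟨y0, hy0, rfl⟩ := Finset.mem_image.1 hj
    refine Finset.card_pos.2 ⟨y0, ?_⟩
    rw [Finset.mem_filter] at hy0 ⊢
    exact ⟨hy0.1, rfl⟩
  have hmain := key_sum ((A.filter (fun y => g y = i)).image f) (cs f A) hone (by
    rcases hcase with ⟨h3, h4⟩ | ⟨h2, h5⟩
    · exact Or.inl ⟨h3, by rw [hsum]; exact h4⟩
    · refine Or.inr ⟨h2, fun j hj => ?_⟩
      obtain ⟨y0, hy0, rfl⟩ := Finset.mem_image.1 hj
      obtain ⟨y', hy'A, hne, hy'⟩ := h5 y0 hy0
      rw [Finset.mem_filter] at hy0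
      refine Finset.one_lt_card.2 ⟨y', ?_, y0, ?_, hne⟩
      · rw [Finset.mem_filter]
        exact ⟨hy'A, hy'⟩
      · rw [Finset.mem_filter]
        exact ⟨hy0.1, rfl⟩)
  rw [hsum] at hmain
  have hg : cs g A i = (A.filter (fun y => g y = i)).card := rfl
  omega

open Classical in
/-- The size of a fibre in a union of fibres. -/
theorem key_card {V κ : Type} [Fintype V] (c : V → V → κ) (A : Finset V) (hA : Cl c A) (u : V)
    (hu : u ∈ A) :
    (A.filter (fun y => fib c y = c u u)).card = Nat.card {w : V // c w w = c u u} := by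
  rw [Nat.card_eq_fintype_card, Fintype.card_subtype]
  congr 1
  ext w
  simp only [Finset.mem_filter, Finset.mem_univ, true_and]
  constructor
  · rintro ⟨-, h⟩
    exact h
  · intro h
    exact ⟨hA u w h.symm hu, h⟩

/-- **KEY**. -/
theorem key (hLOC : StmtLOC) (hSMP : StmtSMP) (hSNG : StmtSNG) (hDEP : StmtDEP) : StmtKEY := by
  classical
  intro V κ _ c A hc hA x hxA hx g hg hgd
  have hval := vals cnt V κ c hc
  have href : ∀ y y', c x y = c x y' → fib c y = fib c y' := fun y y' h =>
    (hval.1 _ _ _ _ h).2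
  have hdep := hDEP V κ c hc
  set T : Finset κ := insert (c x x) (Finset.univ.image fun i => c (g i) (g i)) with hT
  have hTA : T ⊆ A.image (fib c) := by
    intro i hi
    rw [hT, Finset.mem_insert, Finset.mem_image] at hi
    rcases hi with rfl | ⟨k, -, rfl⟩
    · exact Finset.mem_image.2 ⟨x, hxA, rfl⟩
    · exact Finset.mem_image.2 ⟨g k, (hg k).1, rfl⟩
  have hcard : T.card = 4 := by
    rw [hT, Finset.card_insert_of_notMem, Finset.card_image_of_injective, Finset.card_univ,
      Fintype.card_fin]
    · intro i j hij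
      by_contra hne
      exact hgd i j hne hij
    · intro hmem
      obtain ⟨k, -, hk⟩ := Finset.mem_image.1 hmem
      exact (hg k).2.2.1 hk.symm
  have hloc : ∀ i ∈ T, (∑ j ∈ (A.filter (fun y => fib c y = i)).image (c x),
      (cs (c x) A j - 2)) + 2 ≤ cs (fib c) A i - 2 := by
    intro i hi
    rw [hT, Finset.mem_insert, Finset.mem_image] at hi
    rcases hi with rfl | ⟨k, -, rfl⟩
    · -- the fibre of `x`
      obtain ⟨h4, y, z, hy, hz, hyx, hzx, hyz⟩ := hSMP V κ c hc x hx
      refine key_fib (c x) (fib c) A (c x x) href (Or.inl ⟨?_, ?_⟩)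
      · have hmem : ∀ w, c w w = c x x →
            c x w ∈ (A.filter (fun y => fib c y = c x x)).image (c x) := fun w hw =>
          Finset.mem_image.2 ⟨w, Finset.mem_filter.2 ⟨hA x w hw.symm hxA, hw⟩, rfl⟩
        refine Finset.two_lt_card.2 ⟨c x x, hmem x rfl, c x y, hmem y hy, c x z, hmem z hz, ?_, ?_,
          hyz⟩
        · intro h
          exact hyx (hc.diag x x y h).symm
        · intro h
          exact hzx (hc.diag x x z h).symm
      · rw [key_card c A hA x hxA]
        exact h4
    · -- the fibre of `g k`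
      obtain ⟨huA, hus, hud⟩ := hg k
      set u := g k with hu
      obtain ⟨h4, -⟩ := hSMP V κ c hc u hus
      obtain ⟨-, z, hz, hzu⟩ := hud
      have hmem : ∀ w, c w w = c u u →
          c x w ∈ (A.filter (fun y => fib c y = c u u)).image (c x) := fun w hw =>
        Finset.mem_image.2 ⟨w, Finset.mem_filter.2 ⟨hA u w hw.symm huA, hw⟩, rfl⟩
      refine key_fib (c x) (fib c) A (c u u) href ?_
      by_cases h3 : 3 ≤ ((A.filter (fun y => fib c y = c u u)).image (c x)).card
      · exact Or.inl ⟨h3, by rw [key_card c A hA u huA]; exact h4⟩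
      · refine Or.inr ⟨Finset.one_lt_card.2 ⟨c x z, hmem z hz, c x u, hmem u rfl, hzu⟩, ?_⟩
        intro y0 hy0
        by_contra hno
        push Not at hno
        rw [Finset.mem_filter] at hy0
        obtain ⟨hy0A, hy0u⟩ := hy0
        have hy0u' : c y0 y0 = c u u := hy0u
        have hsng : Simple c y0 := by
          refine hSNG V κ c hc x y0 ?_ ?_
          · intro w hw
            by_contra hne
            have hwf : c w w = c y0 y0 := href w y0 hw
            exact hno w (hA y0 w hwf.symm hy0A) hne hw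
          · intro y y' hy hy' hyne hyne'
            by_contra hne
            have hyA : y ∈ A := hA y0 y hy.symm hy0A
            have hyA' : y' ∈ A := hA y0 y' hy'.symm hy0A
            exact h3 (Finset.two_lt_card.2 ⟨c x y, hmem y (hy.trans hy0u'), c x y',
              hmem y' (hy'.trans hy0u'), c x y0, hmem y0 hy0u', hne, hno y hyA hyne,
              hno y' hyA' hyne'⟩)
        exact hus (hdep.2.2.2 y0 u hy0u' hsng)
  have hfin := (hLOC V κ κ (c x) (fib c) A T href hTA).1 (fun _ => 2) hloc
  rw [Finset.sum_const, hcard, smul_eq_mul] at hfin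
  exact hfin

end Pool.Agent.WLE
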