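import Mathlib
import Pool.Agent.WLE.St

set_option autoImplicit false

/-!
# MON: monotonicity of the potentials
-/

namespace Pool.Agent.WLE

namespace Mon

open Classical in
/-- The classes of a refinement are distributed over the classes. -/
theorem exists_map {V κ κ' : Type} (f : V → κ) (g : V → κ') (A : Finset V)
    (hfg : ∀ y y', f y = f y' → g y = g y') (hA : A.Nonempty) :
    ∃ h : κ → κ', ∀ y ∈ A, h (f y) = g y := by
  obtain ⟨y0, _⟩ := hA
  refine ⟨fun j => if hj : ∃ y ∈ A, f y = j then g hj.choose else g y0, ?_⟩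
  intro y hy
  have hj : ∃ y' ∈ A, f y' = f y := ⟨y, hy, rfl⟩
  simp only [dif_pos hj]
  exact hfg _ _ hj.choose_spec.2

open Classical in
theorem cs_sum {V κ κ' : Type} (f : V → κ) (g : V → κ') (A : Finset V) (h : κ → κ')
    (hh : ∀ y ∈ A, h (f y) = g y) (i : κ') :
    cs g A i = ∑ j ∈ (A.image f).filter (fun j => h j = i), cs f A j := by
  unfold cs
  rw [Finset.card_eq_sum_card_fiberwise (f := f)
    (t := (A.image f).filter (fun j => h j = i))]
  · refine Finset.sum_congr rfl ?_
    intro j hj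
    have hji : h j = i := (Finset.mem_filter.mp hj).2
    congr 1
    ext y
    simp only [Finset.mem_filter]
    constructor
    · rintro ⟨⟨hy, _⟩, hfy⟩
      exact ⟨hy, hfy⟩
    · rintro ⟨hy, hfy⟩
      refine ⟨⟨hy, ?_⟩, hfy⟩
      rw [← hh y hy, hfy, hji]
  · intro y hy
    have hy' := Finset.mem_filter.mp (Finset.mem_coe.mp hy)
    refine Finset.mem_coe.mpr (Finset.mem_filter.mpr ⟨Finset.mem_image_of_mem f hy'.1, ?_⟩)
    rw [hh y hy'.1]
    exact hy'.2

open Classical in
theorem cs_total {V κ : Type} (f : V → κ) (A : Finset V) :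
    ∑ j ∈ A.image f, cs f A j = A.card := by
  unfold cs
  exact (Finset.card_eq_sum_card_fiberwise (f := f) (t := A.image f)
    (fun y hy => Finset.mem_coe.mpr
      (Finset.mem_image_of_mem f (Finset.mem_coe.mp hy)))).symm

open Classical in
theorem sum_sub_two {ι : Type} (s : Finset ι) (a : ι → ℕ) :
    ∑ j ∈ s, (a j - 2) ≤ (∑ j ∈ s, a j) - 2 := by
  induction s using Finset.induction_on with
  | empty => simp
  | insert j s hj ih =>
    rw [Finset.sum_insert hj, Finset.sum_insert hj]
    omega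

theorem sqrt_add_le (a b : ℝ) (ha : 0 ≤ a) (hb : 0 ≤ b) :
    Real.sqrt (a + b) ≤ Real.sqrt a + Real.sqrt b := by
  rw [Real.sqrt_le_iff]
  refine ⟨by positivity, ?_⟩
  nlinarith [Real.sq_sqrt ha, Real.sq_sqrt hb, Real.sqrt_nonneg a, Real.sqrt_nonneg b,
    mul_nonneg (Real.sqrt_nonneg a) (Real.sqrt_nonneg b)]

open Classical in
theorem sqrt_sum {ι : Type} (s : Finset ι) (a : ι → ℕ) :
    Real.sqrt ((∑ j ∈ s, a j : ℕ) : ℝ) ≤ ∑ j ∈ s, Real.sqrt (a j) := by
  induction s using Finset.induction_on with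
  | empty => simp
  | insert j s hj ih =>
    rw [Finset.sum_insert hj, Finset.sum_insert hj, Nat.cast_add]
    refine (sqrt_add_le _ _ (Nat.cast_nonneg _) (Nat.cast_nonneg _)).trans ?_
    linarith

theorem sqrt_le_self (n : ℕ) : Real.sqrt (n : ℝ) ≤ n := by
  rw [Real.sqrt_le_iff]
  refine ⟨Nat.cast_nonneg _, ?_⟩
  rcases Nat.eq_zero_or_pos n with h | h
  · subst h; simp
  · have h1 : (1 : ℝ) ≤ n := by exact_mod_cast h
    nlinarith

end Mon

open Mon in
open Classical in
theorem mon : StmtMON := by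
  intro V κ κ' _ f g A hfg
  rcases A.eq_empty_or_nonempty with hA | hA
  · subst hA
    simp [Phi, Num, Sq]
  obtain ⟨h, hh⟩ := exists_map f g A hfg hA
  have hmaps : ∀ j ∈ A.image f, h j ∈ A.image g := by
    intro j hj
    obtain ⟨y, hy, rfl⟩ := Finset.mem_image.mp hj
    rw [hh y hy]
    exact Finset.mem_image_of_mem g hy
  refine ⟨?_, ?_, ?_, ?_, ?_, ?_⟩
  · unfold Phi
    rw [← Finset.sum_fiberwise_of_maps_to hmaps (fun j => cs f A j - 2)]
    refine Finset.sum_le_sum ?_
    intro i _
    rw [cs_sum f g A h hh i]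
    exact sum_sub_two _ _
  · unfold Num
    have himg : A.image g = (A.image f).image h := by
      rw [Finset.image_image]
      refine Finset.image_congr ?_
      intro y hy
      exact (hh y (Finset.mem_coe.mp hy)).symm
    rw [himg]
    exact Finset.card_image_le
  · unfold Sq
    rw [← Finset.sum_fiberwise_of_maps_to hmaps (fun j => Real.sqrt (cs f A j))]
    refine Finset.sum_le_sum ?_
    intro i _
    rw [cs_sum f g A h hh i]
    exact sqrt_sum _ _
  · exact Finset.card_image_le
  · unfold Sq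
    calc ∑ i ∈ A.image f, Real.sqrt (cs f A i) ≤ ∑ i ∈ A.image f, (cs f A i : ℝ) :=
          Finset.sum_le_sum (fun i _ => sqrt_le_self _)
      _ = ((∑ i ∈ A.image f, cs f A i : ℕ) : ℝ) := by push_cast; rfl
      _ = (A.card : ℝ) := by rw [cs_total f A]
  · unfold Phi
    calc ∑ i ∈ A.image f, (cs f A i - 2) ≤ ∑ i ∈ A.image f, cs f A i :=
          Finset.sum_le_sum (fun i _ => Nat.sub_le _ _)
      _ = A.card := cs_total f A

end Pool.Agent.WLE
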