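import Mathlib
import Pool.Agent.WLE.St
import Pool.Agent.BRW.MCnt
import Pool.Agent.BRW.MVal

/-!
# SMP: complex fibres have at least four elements
-/

set_option autoImplicit false

namespace Pool.Agent.WLE

open Pool.Agent.BRW

/-- SMP. -/
theorem smp (_hDEP : StmtDEP) : StmtSMP := by
  intro V κ _ c hc u hns
  have hV := (vals cnt V κ c hc).1
  -- transport of rows inside the fibre of `u`
  have row : ∀ a b : V, c a a = c u u → c b b = c u u → a ≠ b →
      ∃ w, c w w = c u u ∧ w ≠ u ∧ c a b = c u w ∧ c b a = c w u := by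
    intro a b ha hb hab
    obtain ⟨e, he⟩ := cnt V κ c hc u u a a ha.symm
    refine ⟨e.symm b, ?_, ?_, ?_, ?_⟩
    · have h := (he (e.symm b)).1
      rw [e.apply_symm_apply] at h
      have := (hV _ _ _ _ h).2
      rw [← this, hb]
    · intro hw
      have h := (he (e.symm b)).1
      rw [e.apply_symm_apply, hw] at h
      exact hab (hc.diag _ _ _ h.symm)
    · have h := (he (e.symm b)).1
      rw [e.apply_symm_apply] at h
      exact h
    · have h := (he (e.symm b)).2
      rw [e.apply_symm_apply] at h
      exact h
  have two : ∃ y z, c y y = c u u ∧ c z z = c u u ∧ y ≠ u ∧ z ≠ u ∧ c u y ≠ c u z := by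
    by_contra hcon
    push Not at hcon
    apply hns
    intro x y x' y' hx hy hx' hy' hxy hxy'
    obtain ⟨w, hw1, hw2, hw3, -⟩ := row x y hx hy hxy
    obtain ⟨w', hw1', hw2', hw3', -⟩ := row x' y' hx' hy' hxy'
    left
    rw [hw3, hw3']
    exact hcon w w' hw1 hw1' hw2 hw2'
  refine ⟨?_, two⟩
  obtain ⟨y, z, hy, hz, hyu, hzu, hne⟩ := two
  by_contra hlt
  have hyz : y ≠ z := by
    intro h
    exact hne (by rw [h])
  set S : Set V := {w | c w w = c u u} with hS
  have hcard : Nat.card {w : V // c w w = c u u} = S.ncard := rfl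
  rw [hcard] at hlt
  have hsub : ({u, y, z} : Set V) ⊆ S := by
    intro w hw
    simp only [Set.mem_insert_iff, Set.mem_singleton_iff] at hw
    rcases hw with rfl | rfl | rfl
    · rfl
    · exact hy
    · exact hz
  have h3 : ({u, y, z} : Set V).ncard = 3 :=
    Set.ncard_eq_three.mpr ⟨u, y, z, hyu.symm, hzu.symm, hyz, rfl⟩
  have hSeq : ({u, y, z} : Set V) = S := by
    apply Set.eq_of_subset_of_ncard_le hsub
    omega
  have mem : ∀ w : V, c w w = c u u → w = u ∨ w = y ∨ w = z := by
    intro w hw
    have : w ∈ ({u, y, z} : Set V) := by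
      rw [hSeq]
      exact hw
    simpa using this
  -- values of the colours: those of the pairs `(u, y)`, `(u, z)`
  have vl : ∀ a b : V, c a a = c u u → c b b = c u u → a ≠ b →
      (c a b = c u y ∧ c b a = c y u) ∨ (c a b = c u z ∧ c b a = c z u) := by
    intro a b ha hb hab
    obtain ⟨w, hw1, hw2, hw3, hw4⟩ := row a b ha hb hab
    rcases mem w hw1 with h | h | h
    · exact absurd h hw2
    · subst h
      exact Or.inl ⟨hw3, hw4⟩
    · subst h
      exact Or.inr ⟨hw3, hw4⟩
  -- the two entries of a row are different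
  have inj : ∀ a b b' : V, c a a = c u u → c b b = c u u → c b' b' = c u u → a ≠ b →
      a ≠ b' → b ≠ b' → c a b ≠ c a b' := by
    intro a b b' ha hb hb' hab hab' hbb' heq
    obtain ⟨e, he⟩ := cnt V κ c hc u u a a ha.symm
    have m1 : ∀ w, c w w = c u u → c (e w) (e w) = c u u := by
      intro w hw
      have := (hV _ _ _ _ (he w).1).2
      rw [this, hw]
    have n1 : ∀ w, w ≠ u → e w ≠ a := by
      intro w hw h
      have h' := (he w).1
      rw [h] at h'
      exact hw (hc.diag _ _ _ h').symm
    have key : ∀ w, c w w = c u u → w ≠ u → e w = b ∨ e w = b' := by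
      intro w hw hwu
      have q1 := mem _ (m1 w hw)
      have q2 := n1 w hwu
      rcases mem a ha with r | r | r <;> rcases mem b hb with s | s | s <;>
        rcases mem b' hb' with t | t | t <;> rcases q1 with q | q | q <;>
        simp_all
    have hy' := key y hy hyu
    have hz' := key z hz hzu
    have hyy := (he y).1
    have hzz := (he z).1
    have hne' : e y ≠ e z := fun h => hyz (e.injective h)
    rcases hy' with h1 | h1 <;> rcases hz' with h2 | h2
    · exact hne' (h1.trans h2.symm)
    · rw [h1] at hyy
      rw [h2] at hzz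
      exact hne (by rw [← hyy, ← hzz, heq])
    · rw [h1] at hyy
      rw [h2] at hzz
      exact hne (by rw [← hyy, ← hzz, heq])
    · exact hne' (h1.trans h2.symm)
  have huu : c u u = c u u := rfl
  -- the colour of `(y, u)` is not the colour of `(u, y)`
  have hyuP : c y u = c u z ∧ c z u = c u y := by
    rcases vl y u hy huu hyu with h | h
    · exfalso
      -- `c u y` is symmetric
      have sy : ∀ a b, c a b = c u y → c b a = c u y := by
        intro a b hab
        have := hc.symm _ _ _ _ hab
        rw [this, h.1]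
      have hyzv : c y z ≠ c u y := by
        have := inj y u z hy huu hz hyu hyz hzu.symm
        rw [h.1] at this
        exact this.symm
      rcases vl z u hz huu hzu with k | k
      · exact hne (sy _ _ k.1).symm
      · rcases vl z y hz hy hyz.symm with l | l
        · exact hyzv (sy _ _ l.1)
        · have := inj z u y hz huu hy hzu hyz.symm hyu.symm
          exact this (by rw [k.1, l.1])
    · refine ⟨h.1, ?_⟩
      have := hc.symm _ _ _ _ h.1
      exact this.symm
  apply hns
  have fin : ∀ a b : V, c a a = c u u → c b b = c u u → a ≠ b →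
      (c a b = c u y ∧ c b a = c u z) ∨ (c a b = c u z ∧ c b a = c u y) := by
    intro a b ha hb hab
    rcases vl a b ha hb hab with h | h
    · exact Or.inl ⟨h.1, by rw [h.2, hyuP.1]⟩
    · exact Or.inr ⟨h.1, by rw [h.2, hyuP.2]⟩
  intro x y' x' y'' hx hy' hx' hy'' hxy hxy'
  rcases fin x y' hx hy' hxy with h | h <;> rcases fin x' y'' hx' hy'' hxy' with k | k
  · exact Or.inl (h.1.trans k.1.symm)
  · exact Or.inr (h.1.trans k.2.symm)
  · exact Or.inr (h.1.trans k.2.symm)
  · exact Or.inl (h.1.trans k.1.symm)

end Pool.Agent.WLE
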