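import Mathlib
import Pool.Agent.WLE.St
import Pool.Agent.BRW.MCnt
import Pool.Agent.BRW.MVal

set_option autoImplicit false

/-!
# A row with a singleton class and one other class on a fibre (module SNG)
-/

namespace Pool.Agent.WLE

open Pool.Agent.BRW

theorem sng : StmtSNG := by
  intro V κ _ c hc x z h1 h2
  have vl := (vals cnt V κ c hc).1
  have h3 : ∀ y y' : V, c y y = c z z → c y' y' = c z z → y ≠ z → y' ≠ z →
      c z y = c z y' := by
    intro y y' hy hy' hne hne'
    obtain ⟨e, he⟩ := cnt V κ c hc x y x y' (h2 y y' hy hy' hne hne')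
    have ez : e z = z := h1 _ (he z).1
    have h := (he z).2
    rw [ez] at h
    exact h.symm
  have h4 : ∀ z' y w : V, c z' z' = c z z → c y y = c z z → z' ≠ y → c w w = c z z → w ≠ z →
      c z' y = c z w := by
    intro z' y w hz' hy hne hw hwz
    obtain ⟨e, he⟩ := cnt V κ c hc z z z' z' hz'.symm
    have ez : e z = z' := (hc.diag z z' (e z) (he z).1.symm).symm
    have h5 := (he (e.symm y)).1
    rw [Equiv.apply_symm_apply] at h5
    have h6 := (vl _ _ _ _ h5).2
    rw [h5]
    refine h3 _ _ (h6.symm.trans hy) hw ?_ hwz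
    intro h7
    apply hne
    rw [← ez, ← h7, Equiv.apply_symm_apply]
  intro a b a' b' ha hb ha' hb' hab hab'
  left
  have h5 : ∃ w : V, c w w = c z z ∧ w ≠ z := by
    by_cases h : a = z
    · exact ⟨b, hb, fun h' => hab (h.trans h'.symm)⟩
    · exact ⟨a, ha, h⟩
  obtain ⟨w, hw, hwz⟩ := h5
  rw [h4 a b w ha hb hab hw hwz, h4 a' b' w ha' hb' hab' hw hwz]

end Pool.Agent.WLE
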