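import Pool.Agent.WLE.St

/-!
Adding a set of pebbles (module WLE_ADD, helper78).
-/

set_option autoImplicit false

namespace Pool.Agent.WLE

open Pool.Agent.BRW

theorem Ref.trans' {V κ κ' κ'' : Type} {c'' : V → V → κ''} {c' : V → V → κ'} {c : V → V → κ}
    (h : Ref c'' c') (h' : Ref c' c) : Ref c'' c :=
  fun x y x' y' e => h' x y x' y' (h x y x' y' e)

theorem add_aux (hPIN : StmtPIN) (V : Type) (k t : ℕ) (G : SimpleGraph V) (s : Fin t → V) :
    ∀ (m : ℕ) (P : Finset V), P.card = m → t + m + 4 ≤ k →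
    ∃ s' : Fin (t + m) → V,
      Ref (typ k G (t + m) s') (typ k G t s) ∧
      ∀ p ∈ P, ∀ y y' : V,
        typ k G (t + m) s' y y = typ k G (t + m) s' y' y' →
        typ k G t s p y = typ k G t s p y' := by
  classical
  intro m
  induction m with
  | zero =>
    intro P hP _
    refine ⟨s, fun x y x' y' e => e, fun p hp => ?_⟩
    rw [Finset.card_eq_zero] at hP
    subst hP
    simp at hp
  | succ m ih =>
    intro P hP hk
    obtain ⟨p, hp⟩ : P.Nonempty := Finset.card_pos.1 (by omega)
    obtain ⟨s', h1, h2⟩ := ih (P.erase p) (by rw [Finset.card_erase_of_mem hp, hP]; rfl)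
      (by omega)
    obtain ⟨h3, h4⟩ := hPIN V k (t + m) G s' p (by omega)
    refine ⟨Fin.snoc (α := fun _ => V) s' p, Ref.trans' h4 h1, fun q hq y y' e => ?_⟩
    by_cases hqp : q = p
    · subst hqp
      have e1 : typ k G (t + m) s' q y = typ k G (t + m) s' q y' :=
        (h3 y).symm.trans (Eq.trans e (h3 y'))
      exact h1 _ _ _ _ e1
    · exact h2 q (Finset.mem_erase.2 ⟨hqp, hq⟩) y y' (h4 _ _ _ _ e)

theorem add (hPIN : StmtPIN) : StmtADD := by
  intro V _ k t G s P hk
  exact add_aux hPIN V k t G s P.card P rfl hk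

end Pool.Agent.WLE
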