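import Mathlib
import Pool.Agent.WLE.St

set_option autoImplicit false

namespace Pool.Agent.WLE

open Pool.Agent.BRW

namespace MCmb92

open Classical in
/-- The number of classes of `f` on a set, bounded through systems of representatives. -/
theorem reps {V κ : Type} (f : V → κ) (S : Finset V) :
    ∃ T : Finset V, T ⊆ S ∧ T.card = (S.image f).card ∧
      (∀ y ∈ T, ∀ y' ∈ T, y ≠ y' → f y ≠ f y') ∧ (∀ y ∈ S, ∃ z ∈ T, f z = f y) := by
  obtain ⟨T, hT, hinj⟩ : ∃ T ⊆ S, Set.InjOn f (T : Set V) ∧ T.image f = S.image f := by
    have h := Finset.exists_subset_injOn_image_eq_of_surjOn (f := f) (s := S)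
      (t := S.image f) (by
        intro y hy
        simpa using hy)
    obtain ⟨u, hu, hi, he⟩ := h
    exact ⟨u, hu, hi, he⟩
  refine ⟨T, hT, ?_, ?_, ?_⟩
  · rw [← hinj.2, Finset.card_image_of_injOn hinj.1]
  · intro y hy y' hy' hne he
    exact hne (hinj.1 hy hy' he)
  · intro y hy
    have : f y ∈ T.image f := by
      rw [hinj.2]
      exact Finset.mem_image_of_mem f hy
    obtain ⟨z, hz, he⟩ := Finset.mem_image.1 this
    exact ⟨z, hz, he⟩

theorem rtg_symm {V : Type} (R : V → V → Prop) (h : ∀ a b, R a b → R b a) {x y : V}
    (hxy : Relation.ReflTransGen R x y) : Relation.ReflTransGen R y x := by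
  induction hxy with
  | refl => exact .refl
  | tail _ h2 ih => exact Relation.ReflTransGen.head (h _ _ h2) ih

end MCmb92

open Classical in
theorem cmb (hDEP : StmtDEP) (hFSH : StmtFSH) : StmtCMB := by
  intro V κ _ c R A P C M K hc hsymm hA hP hR hC hK hM x hx
  obtain ⟨d1, d2, d3, d4⟩ := hDEP V κ c hc
  -- the set
  set Z : Finset V := Finset.univ.filter (fun y => Relation.ReflTransGen R x y) with hZ
  have hcard : Nat.card {y : V // Relation.ReflTransGen R x y} = Z.card := by
    rw [Nat.card_eq_fintype_card, Fintype.card_subtype]
  rw [hcard]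
  have memZ : ∀ y, y ∈ Z ↔ Relation.ReflTransGen R x y := by
    intro y
    simp [hZ]
  have ZA : ∀ y, Relation.ReflTransGen R x y → y ∈ A := by
    intro y hy
    induction hy with
    | refl => exact hx
    | tail _ h ih => exact (hR _ _ ih h).1
  have hC1 : 1 ≤ C := by
    refine le_trans ?_ (hC x hx)
    have : Nonempty {y : V // c y y = c x x} := ⟨⟨x, rfl⟩⟩
    exact Nat.card_pos
  obtain ⟨T, hTZ, hTc, hTd, hTr⟩ := MCmb92.reps (fun y => c y y) Z
  -- |Z| ≤ C |T|
  have hZT : Z.card ≤ C * T.card := by
    have h1 : Z ⊆ T.biUnion (fun t => Finset.univ.filter (fun y => c y y = c t t)) := by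
      intro y hy
      obtain ⟨z, hz, he⟩ := hTr y hy
      simp only [Finset.mem_biUnion, Finset.mem_filter, Finset.mem_univ, true_and]
      exact ⟨z, hz, he.symm⟩
    refine le_trans (Finset.card_le_card h1) (le_trans Finset.card_biUnion_le ?_)
    have h2 := Finset.sum_le_card_nsmul T
      (fun t => (Finset.univ.filter (fun y => c y y = c t t)).card) C (by
        intro t ht
        have := hC t (ZA t ((memZ t).1 (hTZ ht)))
        rwa [Nat.card_eq_fintype_card, Fintype.card_subtype] at this)
    rw [mul_comm]
    simpa using h2
  have key : T.card ≤ M + M * K + K + 1 ∨ Z.card ≤ 1 := by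
    by_cases hall : ∀ y ∈ Z, Simple c y
    · -- everything simple
      left
      have hq : ∀ y, Relation.ReflTransGen R x y → c y y = c x x ∨ Dep c x y := by
        intro y hy
        induction hy with
        | refl => exact Or.inl rfl
        | @tail y y' h1 h2 ih =>
          have hyA := ZA y h1
          have hs := hall y ((memZ y).2 h1)
          obtain ⟨h3, h4, h5, h6⟩ := hR y y' hyA h2
          rcases ih with ih | ih
          · rcases h6 with h6 | h6
            · left
              rw [← h6, ih]
            · right
              exact d2 y y' x y' ih rfl h6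
          · rcases h6 with h6 | h6
            · right
              exact d2 x y x y' rfl h6 ih
            · by_cases he : c y' y' = c x x
              · exact Or.inl he
              · right
                exact (hFSH V κ c hc x y hs ih).1 y' (d1 _ _ h6) (fun h => he h.symm)
      have h1 : T ⊆ (T.filter (fun y => c y y = c x x)) ∪ (T.filter (fun y => Dep c x y)) := by
        intro y hy
        rcases hq y ((memZ y).1 (hTZ hy)) with h | h
        · simp [hy, h]
        · simp [hy, h]
      have h2 : (T.filter (fun y => c y y = c x x)).card ≤ 1 := by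
        rw [Finset.card_le_one]
        intro a ha b hb
        simp only [Finset.mem_filter] at ha hb
        by_contra hne
        exact hTd a ha.1 b hb.1 hne (by simp only [ha.2, hb.2])
      have h3 : (T.filter (fun y => Dep c x y)).card ≤ K := by
        refine hK x hx _ ?_ ?_
        · intro y hy
          simp only [Finset.mem_filter] at hy
          exact ⟨ZA y ((memZ y).1 (hTZ hy.1)), hy.2⟩
        · intro a ha b hb hne
          simp only [Finset.mem_filter] at ha hb
          exact hTd a ha.1 b hb.1 hne
      have h4 := (Finset.card_le_card h1).trans (Finset.card_union_le _ _)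
      omega
    · push Not at hall
      obtain ⟨x', hx'Z, hx's⟩ := hall
      have hx'R := (memZ x').1 hx'Z
      have hx'A := ZA x' hx'R
      by_cases hZ1 : Z.card ≤ 1
      · exact Or.inr hZ1
      left
      have hx'P : x' ∉ P := by
        -- there is an element of `Z` different from `x'`
        have : ∃ z ∈ Z, z ≠ x' := by
          by_contra hno
          push Not at hno
          apply hZ1
          rw [Finset.card_le_one]
          intro a ha b hb
          rw [hno a ha, hno b hb]
        obtain ⟨z, hz, hne⟩ := this
        have hback : Relation.ReflTransGen R x' x :=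
          MCmb92.rtg_symm R hsymm hx'R
        have hwalk : Relation.ReflTransGen R x' z := hback.trans ((memZ z).1 hz)
        rcases Relation.ReflTransGen.cases_head hwalk with h | ⟨b, hb, _⟩
        · exact absurd h.symm hne
        · exact (hR x' b hx'A hb).2.1
      let E : V → Prop := fun w => ¬ Simple c w ∧ w ∈ A ∧ w ∉ P ∧
        ∃ w', c w w = c w' w' ∧ Relation.ReflTransGen (Cx c A P) x' w'
      have E1 : ∀ w y, E w → c y y = c w w → E y := by
        intro w y hw he
        obtain ⟨h1, h2, h3, w', h4, h5⟩ := hw
        refine ⟨fun h => h1 (d4 y w he h), hA w y he.symm h2, fun h => h3 (hP y w he h), w', ?_, h5⟩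
        rw [he, h4]
      have E2 : ∀ w y, E w → Dep c w y → ¬ Simple c y → y ∈ A → y ∉ P → E y := by
        intro w y hw hd hs hyA hyP
        obtain ⟨h1, h2, h3, w', h4, h5⟩ := hw
        refine ⟨hs, hyA, hyP, y, rfl, h5.tail ?_⟩
        exact ⟨d2 w y w' y h4 rfl hd, fun h => h1 (d4 w' w h4.symm h), hs, hA w w' h4 h2, hyA,
          fun h => h3 (hP w' w h4.symm h), hyP⟩
      have hQ : ∀ y, Relation.ReflTransGen R x' y →
          (y ∈ A ∧ y ∉ P) ∧ (E y ∨ (Simple c y ∧ ∃ w, E w ∧ Dep c w y)) := by
        intro y hy
        induction hy with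
        | refl => exact ⟨⟨hx'A, hx'P⟩, Or.inl ⟨hx's, hx'A, hx'P, x', rfl, .refl⟩⟩
        | @tail y y' h1 h2 ih =>
          obtain ⟨⟨hyA, hyP⟩, ih⟩ := ih
          obtain ⟨h3, h4, h5, h6⟩ := hR y y' hyA h2
          refine ⟨⟨h3, h5⟩, ?_⟩
          rcases ih with ih | ⟨hs, w, hw, hd⟩
          · rcases h6 with h6 | h6
            · exact Or.inl (E1 y y' ih h6.symm)
            · by_cases hs' : Simple c y'
              · exact Or.inr ⟨hs', y, ih, h6⟩
              · exact Or.inl (E2 y y' ih h6 hs' h3 h5)
          · rcases h6 with h6 | h6
            · exact Or.inr ⟨d4 y y' h6 hs, w, hw, d2 w y w y' rfl h6 hd⟩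
            · by_cases he : c w w = c y' y'
              · exact Or.inl (E1 w y' hw he.symm)
              · have hd' : Dep c w y' := (hFSH V κ c hc w y hs hd).1 y' (d1 _ _ h6) he
                by_cases hs' : Simple c y'
                · exact Or.inr ⟨hs', w, hw, hd'⟩
                · exact Or.inl (E2 w y' hw hd' hs' h3 h5)
      have hTQ : ∀ y ∈ T, (E y ∨ (Simple c y ∧ ∃ w, E w ∧ Dep c w y)) := by
        intro y hy
        have hback : Relation.ReflTransGen R x' x :=
          MCmb92.rtg_symm R hsymm hx'R
        exact (hQ y (hback.trans ((memZ y).1 (hTZ hy)))).2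
      -- representatives of the complex fibres
      set W : Finset V := Finset.univ.filter (fun y => Relation.ReflTransGen (Cx c A P) x' y) with hW
      have memW : ∀ y, y ∈ W ↔ Relation.ReflTransGen (Cx c A P) x' y := by
        intro y
        simp [hW]
      have WA : ∀ y ∈ W, y ∈ A := by
        intro y hy
        rcases Relation.ReflTransGen.cases_tail ((memW y).1 hy) with h | ⟨b, _, hb⟩
        · rw [h]; exact hx'A
        · exact hb.2.2.2.2.1
      obtain ⟨T', hTW, hTc', hTd', hTr'⟩ := MCmb92.reps (fun y => c y y) W
      have hT'M : T'.card ≤ M := by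
        refine hM x' hx'A hx'P hx's T' ?_ ?_
        · intro y hy
          exact (memW y).1 (hTW hy)
        · intro a ha b hb hne
          exact hTd' a ha b hb hne
      have h1 : T ⊆ (T.filter (fun y => ¬ Simple c y)) ∪
          T'.biUnion (fun t => T.filter (fun y => Dep c t y)) := by
        intro y hy
        rcases hTQ y hy with h | ⟨hs, w, hw, hd⟩
        · simp [hy, h.1]
        · obtain ⟨h1, h2, h3, w', h4, h5⟩ := hw
          obtain ⟨t, ht, hte⟩ := hTr' w' ((memW w').2 h5)
          simp only [Finset.mem_union, Finset.mem_filter, Finset.mem_biUnion]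
          right
          refine ⟨t, ht, hy, d2 w y t y ?_ rfl hd⟩
          rw [h4]
          exact hte.symm
      have h2 : (T.filter (fun y => ¬ Simple c y)).card ≤ T'.card := by
        have : ∀ y ∈ T.filter (fun y => ¬ Simple c y), ∃ t ∈ T', c t t = c y y := by
          intro y hy
          simp only [Finset.mem_filter] at hy
          rcases hTQ y hy.1 with h | ⟨hs, _⟩
          · obtain ⟨_, _, _, w', h4, h5⟩ := h
            obtain ⟨t, ht, hte⟩ := hTr' w' ((memW w').2 h5)
            exact ⟨t, ht, by rw [h4]; exact hte⟩
          · exact absurd hs hy.2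
        choose! g hg1 hg2 using this
        refine Finset.card_le_card_of_injOn g (fun y hy => hg1 y hy) ?_
        intro a ha b hb hab
        by_contra hne
        have e1 := hg2 a ha
        have e2 := hg2 b hb
        have ha' := (Finset.mem_filter.1 ha).1
        have hb' := (Finset.mem_filter.1 hb).1
        apply hTd a ha' b hb' hne
        show c a a = c b b
        rw [← e1, ← e2, hab]
      have h3 : (T'.biUnion (fun t => T.filter (fun y => Dep c t y))).card ≤ T'.card * K := by
        refine le_trans Finset.card_biUnion_le ?_
        have h2 := Finset.sum_le_card_nsmul T'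
          (fun t => (T.filter (fun y => Dep c t y)).card) K (by
            intro t ht
            refine hK t (WA t (hTW ht)) _ ?_ ?_
            · intro y hy
              simp only [Finset.mem_filter] at hy
              exact ⟨ZA y ((memZ y).1 (hTZ hy.1)), hy.2⟩
            · intro a ha b hb hne
              simp only [Finset.mem_filter] at ha hb
              exact hTd a ha.1 b hb.1 hne)
        simpa using h2
      have h4 := (Finset.card_le_card h1).trans (Finset.card_union_le _ _)
      have h5 : T'.card * K ≤ M * K := Nat.mul_le_mul_right K hT'M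
      omega
  rcases key with key | key
  · exact hZT.trans (Nat.mul_le_mul_left C key)
  · refine key.trans ?_
    calc 1 = 1 * 1 := rfl
      _ ≤ C * (M + M * K + K + 1) := Nat.mul_le_mul hC1 (by omega)

end Pool.Agent.WLE
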