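import Mathlib
import Pool.Agent.WLE.St
import Pool.Agent.BRW.MCnt
import Pool.Agent.BRW.MVal

set_option autoImplicit false

/-!
# Bounded fibres in components of large diameter (module DIA)
-/

namespace Pool.Agent.WLE

open Pool.Agent.BRW

namespace Dia

/-- There is a walk of length at most `m` from `x` to `y`. -/
def R {V : Type} (Γ : SimpleGraph V) (m : ℕ) (x y : V) : Prop := ∃ p : Γ.Walk x y, p.length ≤ m

section

variable {V κ : Type} {Γ : SimpleGraph V}

lemma R_refl (m : ℕ) (x : V) : R Γ m x x := ⟨.nil, by simp⟩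

lemma R_symm {m : ℕ} {x y : V} (h : R Γ m x y) : R Γ m y x := by
  obtain ⟨p, hp⟩ := h
  exact ⟨p.reverse, by rw [SimpleGraph.Walk.length_reverse]; exact hp⟩

lemma R_mono {m n : ℕ} (hmn : m ≤ n) {x y : V} (h : R Γ m x y) : R Γ n x y := by
  obtain ⟨p, hp⟩ := h
  exact ⟨p, hp.trans hmn⟩

lemma R_zero {x y : V} (h : R Γ 0 x y) : x = y := by
  obtain ⟨p, hp⟩ := h
  exact SimpleGraph.Walk.eq_of_length_eq_zero (Nat.le_zero.1 hp)

lemma R_succ {m : ℕ} {x y : V} :
    R Γ (m + 1) x y ↔ ∃ z, (x = z ∨ Γ.Adj x z) ∧ R Γ m z y := by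
  constructor
  · rintro ⟨p, hp⟩
    cases p with
    | nil => exact ⟨x, Or.inl rfl, R_refl m x⟩
    | cons h q =>
      rw [SimpleGraph.Walk.length_cons] at hp
      exact ⟨_, Or.inr h, q, by omega⟩
  · rintro ⟨z, h | h, q, hq⟩
    · subst h
      exact ⟨q, by omega⟩
    · exact ⟨.cons h q, by rw [SimpleGraph.Walk.length_cons]; omega⟩

lemma R_inv [Finite V] {c : V → V → κ} (hc : Coherent c) (hΓ : Inv c Γ.Adj) (m : ℕ) :
    ∀ x y x' y' : V, c x y = c x' y' → R Γ m x y → R Γ m x' y' := by
  induction m with
  | zero =>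
    intro x y x' y' h hR
    have hxy := R_zero hR
    subst hxy
    have := hc.diag x x' y' h
    subst this
    exact R_refl 0 _
  | succ m ih =>
    intro x y x' y' h hR
    obtain ⟨z, hz, hR'⟩ := R_succ.1 hR
    obtain ⟨e, he⟩ := cnt V κ c hc x y x' y' h
    refine R_succ.2 ⟨e z, ?_, ih z y (e z) y' (he z).2.symm hR'⟩
    rcases hz with hz | hz
    · subst hz
      exact Or.inl (hc.diag x x' (e x) (he x).1.symm)
    · exact Or.inr ((hΓ x z x' (e z) (he z).1.symm).1 hz)

lemma R_card [Finite V] {D : ℕ} (hD : ∀ x, Nat.card {y : V // Γ.Adj x y} ≤ D) (m : ℕ) :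
    ∀ x : V, Nat.card {y : V // R Γ m x y} ≤ (D + 1) ^ m := by
  classical
  have := Fintype.ofFinite V
  induction m with
  | zero =>
    intro x
    rw [pow_zero]
    have : Subsingleton {y : V // R Γ 0 x y} := ⟨fun a b => Subtype.ext
      ((R_zero a.2).symm.trans (R_zero b.2))⟩
    exact Finite.card_le_one_iff_subsingleton.2 this
  | succ m ih =>
    intro x
    have e1 : Nat.card {y : V // R Γ (m + 1) x y} =
        (Finset.univ.filter (fun y => R Γ (m + 1) x y)).card := by
      rw [Nat.card_eq_fintype_card, Fintype.card_subtype]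
    have e2 : (Finset.univ.filter (fun y => R Γ (m + 1) x y)) ⊆
        (insert x (Finset.univ.filter (fun z => Γ.Adj x z))).biUnion
          (fun z => Finset.univ.filter (fun y => R Γ m z y)) := by
      intro y hy
      rw [Finset.mem_filter] at hy
      obtain ⟨z, hz, hR⟩ := R_succ.1 hy.2
      rw [Finset.mem_biUnion]
      refine ⟨z, ?_, by simpa using hR⟩
      rw [Finset.mem_insert, Finset.mem_filter]
      rcases hz with hz | hz
      · exact Or.inl hz.symm
      · exact Or.inr ⟨Finset.mem_univ _, hz⟩
    have e3 : (insert x (Finset.univ.filter (fun z => Γ.Adj x z))).card ≤ D + 1 := by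
      refine (Finset.card_insert_le _ _).trans ?_
      have := hD x
      rw [Nat.card_eq_fintype_card, Fintype.card_subtype] at this
      omega
    rw [e1]
    refine (Finset.card_le_card e2).trans ?_
    refine (Finset.card_biUnion_le_card_mul _ _ ((D + 1) ^ m) ?_).trans ?_
    · intro z _
      have := ih z
      rwa [Nat.card_eq_fintype_card, Fintype.card_subtype] at this
    · rw [pow_succ, mul_comm]
      exact Nat.mul_le_mul_left _ e3

end

end Dia

open Dia in
theorem dia (hLOC : StmtLOC) : StmtDIA := by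
  classical
  intro V κ _ c Γ K D hc hΓ hD hN x
  have hV := vals cnt V κ c hc
  have hpow : ∀ i : ℕ, i ≤ 2 * K → (D + 1) ^ i ≤ (D + 1) ^ (2 * K) := fun i hi =>
    Nat.pow_le_pow_right (Nat.succ_pos D) hi
  by_cases h1 : ∃ i, i < 2 * K ∧ ∀ y, R Γ (i + 1) x y → R Γ i x y
  · -- the component is a ball
    left
    obtain ⟨i, hi, h⟩ := h1
    have h2 : ∀ m y, R Γ m x y → R Γ i x y := by
      intro m
      induction m with
      | zero => exact fun y hy => R_mono (Nat.zero_le i) hy
      | succ m ih =>
        intro y hy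
        obtain ⟨z, hz, hR⟩ := R_succ.1 (R_symm hy)
        have h3 := ih z (R_symm hR)
        refine h y (R_symm (R_succ.2 ⟨z, hz, R_symm h3⟩))
    refine le_trans ?_ (hpow i hi.le)
    refine le_trans ?_ (R_card hD i x)
    refine Nat.card_le_card_of_injective
      (fun a : {y : V // Γ.Reachable x y} => (⟨a.1, ?_⟩ : {y : V // R Γ i x y})) ?_
    · obtain ⟨p⟩ := a.2
      exact h2 p.length _ ⟨p, le_rfl⟩
    · intro a b hab
      exact Subtype.ext (congrArg (fun t : {y : V // R Γ i x y} => t.1) hab)
  · push Not at h1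
    -- a vertex in each sphere
    have h2 : ∀ i : Fin (2 * K), ∃ y, R Γ (i.1 + 1) x y ∧ ¬ R Γ i.1 x y := fun i => h1 i.1 i.2
    choose z hz1 hz2 using h2
    by_cases h3 : ∃ i : Fin (2 * K), ∀ w, c w w = c (z i) (z i) → R Γ (i.1 + 1) x w
    · -- the fibre of `x` is inside a ball about `z i`
      right
      obtain ⟨i, h3⟩ := h3
      refine le_trans ?_ (hpow (i.1 + 1) (by have := i.2; omega))
      refine le_trans ?_ (R_card hD (i.1 + 1) (z i))
      refine Nat.card_le_card_of_injective
        (fun a : {y : V // c y y = c x x} => (⟨a.1, ?_⟩ : {y : V // R Γ (i.1 + 1) (z i) y})) ?_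
      · obtain ⟨e, he⟩ := cnt V κ c hc x x a.1 a.1 a.2.symm
        have h4 := (he (e.symm (z i))).1
        rw [Equiv.apply_symm_apply] at h4
        have h5 := (hV.1 _ _ _ _ h4).2
        exact R_symm (R_inv hc hΓ _ _ _ _ _ h4.symm (h3 _ h5.symm))
      · intro a b hab
        exact Subtype.ext
          (congrArg (fun t : {y : V // R Γ (i.1 + 1) (z i) y} => t.1) hab)
    · -- too many classes
      exfalso
      push Not at h3
      have hdist : ∀ i j : Fin (2 * K), i.1 < j.1 → c x (z i) ≠ c x (z j) := by
        intro i j hij h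
        exact hz2 j (R_mono (Nat.succ_le_of_lt hij) (R_inv hc hΓ _ _ _ _ _ h (hz1 i)))
      have hinj : ∀ i j : Fin (2 * K), c x (z i) = c x (z j) → i = j := by
        intro i j h
        rcases lt_trichotomy i.1 j.1 with h' | h' | h'
        · exact absurd h (hdist i j h')
        · exact Fin.ext h'
        · exact absurd h.symm (hdist j i h')
      obtain ⟨-, hL, -⟩ := hLOC V κ κ (c x) (fib c) Finset.univ
        (Finset.univ.image (fun i : Fin (2 * K) => c (z i) (z i)))
        (fun y y' h => (hV.1 _ _ _ _ h).2) (by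
          intro φ hφ
          rw [Finset.mem_image] at hφ ⊢
          obtain ⟨i, -, hi⟩ := hφ
          exact ⟨z i, Finset.mem_univ _, hi⟩)
      have h4 := hL (fun φ => max 2 (Finset.univ.filter
          (fun i : Fin (2 * K) => c (z i) (z i) = φ)).card - 1) (by
        intro φ hφ
        have h5 : 2 ≤ ((Finset.univ.filter (fun y => fib c y = φ)).image (c x)).card := by
          rw [Finset.mem_image] at hφ
          obtain ⟨i, -, hi⟩ := hφ
          obtain ⟨w, hw1, hw2⟩ := h3 i
          rw [← Finset.card_pair (a := c x (z i)) (b := c x w)]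
          · refine Finset.card_le_card ?_
            intro t ht
            rw [Finset.mem_insert, Finset.mem_singleton] at ht
            rw [Finset.mem_image]
            rcases ht with ht | ht
            · exact ⟨z i, Finset.mem_filter.2 ⟨Finset.mem_univ _, hi⟩, ht.symm⟩
            · exact ⟨w, Finset.mem_filter.2 ⟨Finset.mem_univ _, hw1.trans hi⟩, ht.symm⟩
          · intro h
            exact hw2 (R_inv hc hΓ _ _ _ _ _ h (hz1 i))
        have h6 : (Finset.univ.filter (fun i : Fin (2 * K) => c (z i) (z i) = φ)).card ≤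
            ((Finset.univ.filter (fun y => fib c y = φ)).image (c x)).card := by
          refine Finset.card_le_card_of_injOn (fun i => c x (z i)) ?_ ?_
          · intro i hi
            rw [Finset.mem_coe, Finset.mem_filter] at hi
            rw [Finset.mem_coe, Finset.mem_image]
            exact ⟨z i, Finset.mem_filter.2 ⟨Finset.mem_univ _, hi.2⟩, rfl⟩
          · intro i _ j _ h
            exact hinj i j h
        omega)
      have h5 := Finset.card_eq_sum_card_image (fun i : Fin (2 * K) => c (z i) (z i)) Finset.univ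
      rw [Finset.card_univ, Fintype.card_fin] at h5
      have h6 : ∑ φ ∈ Finset.univ.image (fun i : Fin (2 * K) => c (z i) (z i)),
          (Finset.univ.filter (fun i : Fin (2 * K) => c (z i) (z i) = φ)).card ≤
          ∑ φ ∈ Finset.univ.image (fun i : Fin (2 * K) => c (z i) (z i)),
            2 * (max 2 (Finset.univ.filter
              (fun i : Fin (2 * K) => c (z i) (z i) = φ)).card - 1) := by
        refine Finset.sum_le_sum fun φ _ => ?_
        omega
      rw [← Finset.mul_sum] at h6
      have h7 := hN x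
      omega

end Pool.Agent.WLE
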