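import Mathlib
import Pool.Agent.BRW.MCnt
import Pool.Agent.BRW.MVal
import Pool.Agent.WLE.St

set_option autoImplicit false

/-!
# WLE: edges inside the final cells (module EDG)
-/

namespace Pool.Agent.WLE

open Pool.Agent.BRW

/-- If `{a}` is a fibre then every row is constant on the fibre of `b` in the coarser
configuration. -/
theorem edg_single {V κ₁ κ₂ : Type} [Finite V] (c₁ : V → V → κ₁) (c₂ : V → V → κ₂)
    (h2 : Coherent c₂) (hR : Ref c₂ c₁) (a : V) (hs : ∀ y, c₂ y y = c₂ a a → y = a)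
    (y' y'' : V) (hy : c₂ y' y' = c₂ y'' y'') : c₁ y' a = c₁ y'' a := by
  obtain ⟨e, he⟩ := cnt V κ₂ c₂ h2 y' y' y'' y'' hy
  have h3 := (he a).1
  have h4 := ((vals cnt V κ₂ c₂ h2).1 _ _ _ _ h3).2
  have h5 := hs _ h4
  rw [h5] at h3
  exact (hR _ _ _ _ h3).symm

/-- EDG. -/
theorem edg (hDEP : StmtDEP) : StmtEDG := by
  intro V κ₀ κ₁ κ₂ _ G c₀ c₁ c₂ A P h1 h2 hR hInv hA hP a b ha hab
  have hsing : ∀ p ∈ P, ∀ y, c₂ y y = c₂ p p → y = p := by
    intro p hp y hy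
    exact (h1.diag p p y (hP p hp y p hy).symm).symm
  refine ⟨hA a b hab.1 ha, ?_, ?_, ?_⟩
  · intro haP
    apply hab.2
    have hs := hsing a haP
    intro x' y' x'' y'' hx' hy' hx'' hy'' _ _
    have e1 := hs x' hx'
    have e2 := hs x'' hx''
    subst e1
    rw [e2]
    have h3 := edg_single c₁ c₂ h2 hR x' hs y' y'' (hy'.trans hy''.symm)
    have h4 := hInv _ _ _ _ h3
    rw [G.adj_comm x' y', G.adj_comm x' y'']
    exact h4
  · intro hbP
    apply hab.2
    have hs := hsing b hbP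
    intro x' y' x'' y'' hx' hy' hx'' hy'' _ _
    have e1 := hs y' hy'
    have e2 := hs y'' hy''
    subst e1
    rw [e2]
    have h3 := edg_single c₁ c₂ h2 hR y' hs x' x'' (hx'.trans hx''.symm)
    exact hInv _ _ _ _ h3
  · by_contra hcon
    rw [not_or] at hcon
    apply hab.2
    have h3 := (hDEP V κ₁ c₁ h1).2.2.1 a b hcon.1 hcon.2
    intro x' y' x'' y'' hx' hy' hx'' hy'' _ _
    have e1 := h3 x' y' (hR _ _ _ _ hx') (hR _ _ _ _ hy')
    have e2 := h3 x'' y'' (hR _ _ _ _ hx'') (hR _ _ _ _ hy'')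
    exact hInv _ _ _ _ (e1.trans e2.symm)

end Pool.Agent.WLE
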