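import Mathlib
import Pool.Agent.BRW.St
import Pool.Agent.WLE.St

set_option autoImplicit false

namespace Pool.Agent.WLE

open Pool.Agent.BRW

theorem hom_symm {V κ : Type} (G : SimpleGraph V) (c : V → V → κ) (x y : V)
    (h : Hom G c x y) : Hom G c y x := by
  intro x' y' x'' y'' h1 h2 h3 h4 h5 h6
  have := h y' x' y'' x'' h2 h1 h4 h3 h5.symm h6.symm
  rw [G.adj_comm x' y', G.adj_comm x'' y'']
  exact this

theorem fin8 (hVAL : StmtVAL) (hTYC : StmtTYC) (hCEL : StmtCEL) (hMON : StmtMON)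
    (hKEY : StmtKEY) (hNMD : StmtNMD) (hMNO : StmtMNO) (hDEG : StmtDEG) (hDIA : StmtDIA)
    (hRCH : StmtRCH) (hGRA : StmtGRA) (hADD : StmtADD) (hAPP : StmtAPP) (hEDG : StmtEDG)
    (hCMB : StmtCMB) : StmtFIN := by
  classical
  intro V _ k K M t₀ G s₀ hK hM hterm hk
  set C : ℕ := (4 * K ^ 2 + 1) ^ (2 * K) with hCdef
  set c₀ := typ k G t₀ s₀ with hc₀def
  obtain ⟨q1, hq1⟩ : ∃ q, q = Fintype.card V / 8 := ⟨_, rfl⟩
  obtain ⟨q2, hq2⟩ : ∃ q, q = Fintype.card V / K := ⟨_, rfl⟩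
  obtain ⟨q3, hq3⟩ : ∃ q, q = 2 * C * Fintype.card V / M := ⟨_, rfl⟩
  obtain ⟨q4, hq4⟩ : ∃ q, q = C * (M + M * K + K + 1) := ⟨_, rfl⟩
  rw [← hq1, ← hq2, ← hq3, ← hq4] at hk
  obtain ⟨hc0, -, hadj0, -, -⟩ := hTYC V k t₀ G s₀ (by omega)
  have hrow : ∀ {κ : Type} (c : V → V → κ), Coherent c → ∀ x y y', c x y = c x y' →
      fib c y = fib c y' := by
    intro κ c hc x y y' h
    exact ((hVAL V κ c hc).1 x y x y' h).2
  obtain ⟨hsymm, hMinv, hMcross, -⟩ := hMNO V _ G c₀ hc0 hadj0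
  have hdeg : ∀ x, Nat.card {y : V // Mn G c₀ x y} ≤ 4 * K ^ 2 := by
    intro x
    apply hDEG V _ G c₀ K hc0 hadj0 x
    have h1 := hterm x
    have h2 := (hMON V _ _ (c₀ x) (fib c₀) Finset.univ (hrow c₀ hc0 x)).2.1
    have h3 : ((Num (fib c₀) Finset.univ : ℕ) : ℝ) ≤ (Num (c₀ x) Finset.univ : ℕ) := by
      exact_mod_cast h2
    linarith
  have hnum : ∀ x, Num (c₀ x) Finset.univ < Num (fib c₀) Finset.univ + K := by
    intro x
    have h1 := hterm x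
    have h2 := (hMON V _ _ (c₀ x) (fib c₀) Finset.univ (hrow c₀ hc0 x)).2.2.1
    have h3 : ((Num (c₀ x) Finset.univ : ℕ) : ℝ) < (Num (fib c₀) Finset.univ : ℕ) + (K : ℝ) := by
      linarith
    exact_mod_cast h3
  let Γ₀ : SimpleGraph V := SimpleGraph.mk (Mn G c₀) ⟨fun x y h => hsymm x y h⟩
    ⟨fun x h => h.1 rfl⟩
  have hΓadj : ∀ x y, Γ₀.Adj x y ↔ Mn G c₀ x y := fun x y => Iff.rfl
  have hdia := hDIA V _ c₀ Γ₀ K (4 * K ^ 2) hc0 hMinv hdeg hnum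
  obtain ⟨hRinv0, hRcard0⟩ := hRCH V _ c₀ Γ₀ hc0 hMinv
  set A : Finset V := Finset.univ.filter
    (fun x => C < Nat.card {y : V // Γ₀.Reachable x y}) with hA
  have memA : ∀ x, x ∈ A ↔ C < Nat.card {y : V // Γ₀.Reachable x y} := by
    intro x; simp [hA]
  have hAcl0 : Cl c₀ A := by
    intro x y hxy hx
    rw [memA] at hx ⊢
    rw [← hRcard0 x y hxy]
    exact hx
  have hAfib0 : ∀ x ∈ A, Nat.card {y : V // c₀ y y = c₀ x x} ≤ C := by
    intro x hx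
    rw [memA] at hx
    rcases hdia x with h | h
    · exact absurd h (not_le.mpr hx)
    · exact h
  have hAMn : ∀ x y, Mn G c₀ x y → x ∈ A → y ∈ A := by
    intro x y hxy hx
    rw [memA] at hx ⊢
    have hr : Γ₀.Reachable x y := SimpleGraph.Adj.reachable hxy
    have : Nat.card {z : V // Γ₀.Reachable x z} = Nat.card {z : V // Γ₀.Reachable y z} := by
      apply Nat.card_congr
      exact Equiv.subtypeEquivRight (fun z => ⟨fun h => hr.symm.trans h, fun h => hr.trans h⟩)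
    omega
  obtain ⟨t₁, s₁, ht1, href1, hterm1⟩ := hGRA V k K t₀ G s₀ A hK
    (by rw [← hq1, ← hq2]; omega)
  rw [← hq1, ← hq2] at ht1
  set c₁ := typ k G t₁ s₁ with hc₁def
  obtain ⟨hc1, -, hadj1, -, -⟩ := hTYC V k t₁ G s₁ (by omega)
  have hAcl1 : Cl c₁ A := fun x y hxy hx => hAcl0 x y (href1 x x y y hxy) hx
  have hAfib1 : ∀ x ∈ A, Nat.card {y : V // c₁ y y = c₁ x x} ≤ C := by
    intro x hx
    refine le_trans ?_ (hAfib0 x hx)
    exact Nat.card_le_card_of_injective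
      (fun y : {y : V // c₁ y y = c₁ x x} =>
        (⟨y.1, href1 _ _ _ _ y.2⟩ : {y : V // c₀ y y = c₀ x x}))
      (fun a b h => Subtype.ext (Subtype.mk.inj h))
  have hT1 : ∀ x ∈ A, ∀ T : Finset V, (∀ y ∈ T, y ∈ A ∧ Dep c₁ x y) → Dif c₁ T →
      T.card ≤ K := by
    intro x hx T hT hdif
    have h1 := hNMD V _ c₁ A hc1 hAcl1 x hx T hT hdif
    have h2 := (hterm1 x hx).2
    omega
  have h31 : ∀ x ∈ A, ¬ Simple c₁ x → ∀ g : Fin 3 → V,
      (∀ i, g i ∈ A ∧ ¬ Simple c₁ (g i) ∧ Dep c₁ x (g i)) →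
      ∃ i j, i ≠ j ∧ c₁ (g i) (g i) = c₁ (g j) (g j) := by
    intro x hx hs g hg
    by_contra hcon
    push Not at hcon
    have h1 := hKEY V _ c₁ A hc1 hAcl1 x hx hs g hg hcon
    have h2 := (hterm1 x hx).1
    omega
  obtain ⟨P, hPA, hPcl, -, hPcard, hPM⟩ := hAPP V _ c₁ A C M hc1 hAcl1 hM hAfib1 h31
  have hPc : P.card ≤ q3 := by
    rw [hq3, Nat.le_div_iff_mul_le (by omega)]
    exact hPcard
  obtain ⟨t₂, s₂, ht₂, href2, hP2⟩ : ∃ (t₂ : ℕ) (s₂ : Fin t₂ → V), t₂ = t₁ + P.card ∧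
      Ref (typ k G t₂ s₂) (typ k G t₁ s₁) ∧
      ∀ p ∈ P, ∀ y y' : V, typ k G t₂ s₂ y y = typ k G t₂ s₂ y' y' →
        typ k G t₁ s₁ p y = typ k G t₁ s₁ p y' := by
    obtain ⟨s₂, h1, h2⟩ := hADD V k t₁ G s₁ P (by omega)
    exact ⟨_, s₂, rfl, h1, h2⟩
  set c₂ := typ k G t₂ s₂ with hc₂def
  obtain ⟨hc2, -, hadj2, -, -⟩ := hTYC V k t₂ G s₂ (by omega)
  have hHsymm : ∀ x y, Hh G c₀ c₂ x y → Hh G c₀ c₂ y x :=
    fun x y h => ⟨hsymm x y h.1, fun h' => h.2 (hom_symm G c₂ y x h')⟩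
  let Γ₂ : SimpleGraph V := SimpleGraph.mk (Hh G c₀ c₂) ⟨fun x y h => hHsymm x y h⟩
    ⟨fun x h => h.1.1 rfl⟩
  have hHinv : Inv c₂ (Hh G c₀ c₂) := by
    intro x y x' y' h
    have h1 : Mn G c₀ x y ↔ Mn G c₀ x' y' := hMinv x y x' y' (href1 _ _ _ _ (href2 _ _ _ _ h))
    obtain ⟨h2, h3⟩ := (hVAL V _ c₂ hc2).1 x y x' y' h
    have h4 : Hom G c₂ x y ↔ Hom G c₂ x' y' := by
      unfold Hom
      rw [h2, h3]
    unfold Hh
    rw [h1, h4]
  obtain ⟨hRinv2, -⟩ := hRCH V _ c₂ Γ₂ hc2 hHinv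
  have hreach : ∀ x y, Γ₂.Reachable x y ↔ Relation.ReflTransGen (Hh G c₀ c₂) x y := by
    intro x y
    exact SimpleGraph.reachable_iff_reflTransGen x y
  have hcard : ∀ x, Nat.card {y : V // Γ₂.Reachable x y} ≤ C * (M + M * K + K + 1) := by
    intro x
    by_cases hx : x ∈ A
    · have h1 := hCMB V _ c₁ (Hh G c₀ c₂) A P C M K hc1 hHsymm hAcl1 hPcl
        (hEDG V _ _ _ G c₀ c₁ c₂ A P hc1 hc2 href2 hadj1 hAMn hP2) hAfib1 hT1 hPM x hx
      have h2 : Nat.card {y : V // Γ₂.Reachable x y} =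
          Nat.card {y : V // Relation.ReflTransGen (Hh G c₀ c₂) x y} :=
        Nat.card_congr (Equiv.subtypeEquivRight (fun z => hreach x z))
      rw [h2]
      exact h1
    · rw [memA, not_lt] at hx
      have h1 : Nat.card {y : V // Γ₂.Reachable x y} ≤ Nat.card {y : V // Γ₀.Reachable x y} := by
        have hle : Γ₂ ≤ Γ₀ := fun a b h => h.1
        exact Nat.card_le_card_of_injective
          (fun y : {y : V // Γ₂.Reachable x y} =>
            (⟨y.1, y.2.mono hle⟩ : {y : V // Γ₀.Reachable x y}))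
          (fun a b h => Subtype.ext (Subtype.mk.inj h))
      calc _ ≤ C := le_trans h1 hx
        _ = C * 1 := (mul_one C).symm
        _ ≤ C * (M + M * K + K + 1) := Nat.mul_le_mul_left C (by omega)
  refine hCEL V k t₂ (C * (M + M * K + K + 1)) G s₂ Γ₂.Reachable (by rw [← hq4]; omega)
    Γ₂.reachable_is_equivalence hcard (fun x y x' y' h => hRinv2 x y x' y' h) ?_
  intro x z x1 z1 hx hz hxz hxz1
  have hne : x ≠ z := fun h => hxz (h ▸ SimpleGraph.Reachable.refl x)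
  have hne1 : x1 ≠ z1 := fun h => hxz1 (h ▸ SimpleGraph.Reachable.refl x1)
  by_cases hh : Hom G c₂ x z
  · exact hh x z x1 z1 rfl rfl hx.symm hz.symm hne hne1
  · have hh1 : ¬ Hom G c₂ x1 z1 := by
      intro h
      apply hh
      unfold Hom at h ⊢
      change c₂ x x = c₂ x1 x1 at hx
      change c₂ z z = c₂ z1 z1 at hz
      rw [hx, hz]
      exact h
    have h1 : ¬ Mn G c₀ x z := fun h =>
      hxz (SimpleGraph.Adj.reachable (show Γ₂.Adj x z from ⟨h, hh⟩))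
    have h2 : ¬ Mn G c₀ x1 z1 := fun h =>
      hxz1 (SimpleGraph.Adj.reachable (show Γ₂.Adj x1 z1 from ⟨h, hh1⟩))
    exact hMcross x z x1 z1 (href1 _ _ _ _ (href2 _ _ _ _ hx))
      (href1 _ _ _ _ (href2 _ _ _ _ hz)) hne hne1 h1 h2

end Pool.Agent.WLE
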