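import Mathlib
import Pool.Agent.WLE.St

set_option autoImplicit false

/-!
# Second greedy phase
-/

namespace Pool.Agent.WLE

open Pool.Agent.BRW

theorem gra_aux (hMON : StmtMON) (hPIN : StmtPIN) (V : Type) [Fintype V] (k K t₀ : ℕ)
    (G : SimpleGraph V) (s₀ : Fin t₀ → V) (A : Finset V) (hK : 1 ≤ K)
    (hk : t₀ + Fintype.card V / 8 + Fintype.card V / K + 5 ≤ k) :
    ∀ (m t a b : ℕ) (s : Fin t → V), t = t₀ + a + b →
      8 * a + Phi (fib (typ k G t s)) A ≤ Fintype.card V →
      K * b ≤ Num (fib (typ k G t s)) A →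
      Ref (typ k G t s) (typ k G t₀ s₀) →
      Fintype.card V / 8 + Fintype.card V / K < m + (a + b) →
      ∃ (t : ℕ) (s : Fin t → V), t ≤ t₀ + Fintype.card V / 8 + Fintype.card V / K ∧
        Ref (typ k G t s) (typ k G t₀ s₀) ∧
        ∀ x ∈ A, Phi (fib (typ k G t s)) A < Phi (typ k G t s x) A + 8 ∧
          Num (typ k G t s x) A < Num (fib (typ k G t s)) A + K := by
  intro m
  induction m with
  | zero =>
    intro t a b s _ h1 h2 _ hm
    exfalso
    have hN := (hMON V _ _ (fib (typ k G t s)) (fib (typ k G t s)) A (fun _ _ h => h)).2.2.2.1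
    have hA : A.card ≤ Fintype.card V := Finset.card_le_univ A
    have ha : a ≤ Fintype.card V / 8 := by
      rw [Nat.le_div_iff_mul_le (by norm_num)]; omega
    have hb : b ≤ Fintype.card V / K := by
      rw [Nat.le_div_iff_mul_le (by omega), Nat.mul_comm]; omega
    omega
  | succ m ih =>
    intro t a b s ht h1 h2 hR hm
    have hN := (hMON V _ _ (fib (typ k G t s)) (fib (typ k G t s)) A (fun _ _ h => h)).2.2.2.1
    have hA : A.card ≤ Fintype.card V := Finset.card_le_univ A
    have ha : a ≤ Fintype.card V / 8 := by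
      rw [Nat.le_div_iff_mul_le (by norm_num)]; omega
    have hb : b ≤ Fintype.card V / K := by
      rw [Nat.le_div_iff_mul_le (by omega), Nat.mul_comm]; omega
    by_cases hterm : ∀ x ∈ A, Phi (fib (typ k G t s)) A < Phi (typ k G t s x) A + 8 ∧
          Num (typ k G t s x) A < Num (fib (typ k G t s)) A + K
    · exact ⟨t, s, by omega, hR, hterm⟩
    · push Not at hterm
      obtain ⟨x, _, hx⟩ := hterm
      obtain ⟨hp1, hp2⟩ := hPIN V k t G s x (by omega)
      have hfib : fib (typ k G (t + 1) (Fin.snoc (α := fun _ => V) s x)) = typ k G t s x := by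
        funext y
        exact hp1 y
      have hmon := hMON V _ _ (typ k G t s x) (fib (typ k G t s)) A (by
        intro y y' hyy
        rw [← hfib] at hyy
        exact (hp2 y y y' y' hyy))
      have hR' : Ref (typ k G (t + 1) (Fin.snoc (α := fun _ => V) s x)) (typ k G t₀ s₀) :=
        fun x1 y1 x2 y2 h => hR _ _ _ _ (hp2 _ _ _ _ h)
      by_cases hc : Phi (fib (typ k G t s)) A < Phi (typ k G t s x) A + 8
      · have h3 := hx hc
        refine ih (t + 1) a (b + 1) (Fin.snoc (α := fun _ => V) s x) (by omega) ?_ ?_ hR'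
          (by omega)
        · rw [hfib]
          have := hmon.1
          omega
        · rw [hfib, Nat.mul_add, Nat.mul_one]
          omega
      · push Not at hc
        refine ih (t + 1) (a + 1) b (Fin.snoc (α := fun _ => V) s x) (by omega) ?_ ?_ hR'
          (by omega)
        · rw [hfib]
          omega
        · rw [hfib]
          have := hmon.2.1
          omega

/-- GRA: the second greedy phase. -/
theorem gra (hMON : StmtMON) (hPIN : StmtPIN) : StmtGRA := by
  intro V _ k K t₀ G s₀ A hK hk
  refine gra_aux hMON hPIN V k K t₀ G s₀ A hK hk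
    (Fintype.card V / 8 + Fintype.card V / K + 1) t₀ 0 0 s₀ (by omega) ?_ (by simp)
    (fun _ _ _ _ h => h) (by omega)
  have h := (hMON V _ _ (fib (typ k G t₀ s₀)) (fib (typ k G t₀ s₀)) A
    (fun _ _ h => h)).2.2.2.2.2
  have hA : A.card ≤ Fintype.card V := Finset.card_le_univ A
  omega

end Pool.Agent.WLE
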