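import Pool.Agent.WLE.St

set_option autoImplicit false

/-!
# First greedy phase
-/

namespace Pool.Agent.WLE

open Pool.Agent.BRW

open Classical in
theorem grz (hMON : StmtMON) (hPIN : StmtPIN) : StmtGRZ := by
  intro V _ k K G hK hk
  set N : ℕ := 2 * Fintype.card V / K with hN
  -- the potential
  have key : ∀ t : ℕ, t ≤ N + 1 →
      (∃ (t' : ℕ) (s : Fin t' → V), t' < t ∧
        ∀ x, Sq (typ k G t' s x) Finset.univ + Num (typ k G t' s x) Finset.univ <
          Sq (fib (typ k G t' s)) Finset.univ + Num (fib (typ k G t' s)) Finset.univ + K) ∨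
      ∃ s : Fin t → V, (t : ℝ) * K ≤
        Sq (fib (typ k G t s)) Finset.univ + Num (fib (typ k G t s)) Finset.univ := by
    intro t
    induction t with
    | zero =>
      intro _
      refine Or.inr ⟨fun i => i.elim0, ?_⟩
      have h0 : (0 : ℝ) ≤ Sq (fib (typ k G 0 (fun i => i.elim0))) (Finset.univ : Finset V) :=
        Finset.sum_nonneg fun i _ => Real.sqrt_nonneg _
      have h1 : (0 : ℝ) ≤ (Num (fib (typ k G 0 (fun i => i.elim0))) (Finset.univ : Finset V) : ℝ) :=
        Nat.cast_nonneg _
      have h2 : ((0 : ℕ) : ℝ) * (K : ℝ) = 0 := by simp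
      rw [h2]
      exact add_nonneg h0 h1
    | succ t ih =>
      intro ht
      rcases ih (by omega) with ⟨t', s, h1, h2⟩ | ⟨s, hs⟩
      · exact Or.inl ⟨t', s, by omega, h2⟩
      · by_cases hT : ∀ x, Sq (typ k G t s x) Finset.univ + Num (typ k G t s x) Finset.univ <
          Sq (fib (typ k G t s)) Finset.univ + Num (fib (typ k G t s)) Finset.univ + K
        · exact Or.inl ⟨t, s, by omega, hT⟩
        · push Not at hT
          obtain ⟨x, hx⟩ := hT
          refine Or.inr ⟨Fin.snoc (α := fun _ => V) s x, ?_⟩
          have hfib : fib (typ k G (t + 1) (Fin.snoc (α := fun _ => V) s x)) = typ k G t s x := by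
            funext y
            exact (hPIN V k t G s x (by omega)).1 y
          rw [hfib]
          push_cast
          linarith
  rcases key (N + 1) le_rfl with ⟨t', s, h1, h2⟩ | ⟨s, hs⟩
  · exact ⟨t', s, by omega, h2⟩
  · exfalso
    obtain ⟨-, -, -, h4, h5, -⟩ := hMON V _ _ (fib (typ k G (N + 1) s)) (fib (typ k G (N + 1) s))
      Finset.univ (fun y y' h => h)
    have h4' : (Num (fib (typ k G (N + 1) s)) (Finset.univ : Finset V) : ℝ) ≤
        (Fintype.card V : ℝ) := by
      have := h4
      rw [Finset.card_univ] at this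
      exact_mod_cast this
    have h5' : Sq (fib (typ k G (N + 1) s)) (Finset.univ : Finset V) ≤ (Fintype.card V : ℝ) := by
      have := h5
      rw [Finset.card_univ] at this
      exact this
    have h6 : 2 * Fintype.card V < (N + 1) * K := by
      have := Nat.lt_div_mul_add (a := 2 * Fintype.card V) (b := K) (by omega)
      rw [← hN] at this
      nlinarith
    have h7 : (2 * (Fintype.card V : ℝ)) < ((N + 1 : ℕ) : ℝ) * (K : ℝ) := by exact_mod_cast h6
    linarith

end Pool.Agent.WLE
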