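import Pool.Agent.BRW.MCnt
import Pool.Agent.BRW.MVal
import Pool.Agent.WLE.St

set_option autoImplicit false

/-!
# The minority graph (module MNO)
-/

namespace Pool.Agent.WLE

open Pool.Agent.BRW

/-- A bijection that moves row `x` to row `x'`, for two vertices of one fibre. -/
theorem mno_equiv {V κ : Type} [Finite V] {c : V → V → κ} (hc : Coherent c) {x x' : V}
    (h : c x x = c x' x') :
    ∃ e : V ≃ V, e x = x' ∧ (∀ w, c x' (e w) = c x w) ∧ ∀ w, c (e w) (e w) = c w w := by
  obtain ⟨e, he⟩ := cnt V κ c hc x x x' x' h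
  have hval := (vals cnt V κ c hc).1
  refine ⟨e, (hc.diag x x' (e x) (he x).1.symm).symm, fun w => (he w).1, fun w => ?_⟩
  exact (hval x' (e w) x w (he w).1).2

/-- Counting the elements of a fibre in a row that satisfy an invariant relation. -/
theorem mno_card {V κ : Type} [Finite V] {c : V → V → κ} (hc : Coherent c)
    {R : V → V → Prop} (hR : Inv c R) {x x' y y' : V}
    (hx : c x x = c x' x') (hy : c y y = c y' y') :
    Nat.card {w : V // c w w = c y y ∧ w ≠ x ∧ R x w} =
      Nat.card {w : V // c w w = c y' y' ∧ w ≠ x' ∧ R x' w} := by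
  obtain ⟨e, ex, e1, e2⟩ := mno_equiv hc hx
  refine Nat.card_congr (e.subtypeEquiv fun w => ?_)
  rw [e2 w, hy, hR x' (e w) x w (e1 w), ← ex, e.injective.ne_iff]

/-- Double counting between two fibres. -/
theorem mno_double {V κ : Type} [Fintype V] {c : V → V → κ} (hc : Coherent c)
    {R : V → V → Prop} (hR : Inv c R) (hs : ∀ a b, R a b → R b a) (x y : V) :
    Nat.card {w : V // c w w = c x x} * Nat.card {w : V // c w w = c y y ∧ w ≠ x ∧ R x w} =
      Nat.card {w : V // c w w = c y y} * Nat.card {w : V // c w w = c x x ∧ w ≠ y ∧ R y w} := by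
  classical
  have key : ∀ x y : V, Nat.card {p : V × V // (c p.1 p.1 = c x x ∧ c p.2 p.2 = c y y) ∧
      (p.2 ≠ p.1 ∧ R p.1 p.2)} =
      Nat.card {w : V // c w w = c x x} * Nat.card {w : V // c w w = c y y ∧ w ≠ x ∧ R x w} := by
    intro x y
    have e : {p : V × V // (c p.1 p.1 = c x x ∧ c p.2 p.2 = c y y) ∧ (p.2 ≠ p.1 ∧ R p.1 p.2)} ≃
        (Σ u : {u : V // c u u = c x x}, {w : V // c w w = c y y ∧ w ≠ u.1 ∧ R u.1 w}) :=
      { toFun := fun p => ⟨⟨p.1.1, p.2.1.1⟩, ⟨p.1.2, p.2.1.2, p.2.2.1, p.2.2.2⟩⟩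
        invFun := fun q => ⟨(q.1.1, q.2.1), ⟨q.1.2, q.2.2.1⟩, q.2.2.2.1, q.2.2.2.2⟩
        left_inv := fun p => rfl
        right_inv := fun q => rfl }
    rw [Nat.card_congr e, Nat.card_sigma,
      Finset.sum_congr rfl fun u _ => mno_card hc hR (x := u.1) (x' := x) (y := y) (y' := y)
        u.2 rfl,
      Finset.sum_const, Finset.card_univ, smul_eq_mul,
      Nat.card_eq_fintype_card (α := {u : V // c u u = c x x})]
  rw [← key x y, ← key y x]
  refine Nat.card_congr ((Equiv.prodComm V V).subtypeEquiv fun p => ?_)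
  constructor
  · rintro ⟨⟨h1, h2⟩, h3, h4⟩
    exact ⟨⟨h2, h1⟩, h3.symm, hs _ _ h4⟩
  · rintro ⟨⟨h1, h2⟩, h3, h4⟩
    exact ⟨⟨h2, h1⟩, h3.symm, hs _ _ h4⟩

/-- MNO: the minority graph is symmetric and a union of colours, off it adjacency depends only on
the fibres, and in each row it has at most half of each fibre. -/
theorem mno : StmtMNO := by
  intro V κ _ G c hc hI
  have hval := (vals cnt V κ c hc).1
  have hJ : Inv c (fun a b => ¬ G.Adj a b) := fun x y x' y' h => not_congr (hI x y x' y' h)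
  have hna : ∀ {x x' y y' : V}, c x x = c x' x' → c y y = c y' y' →
      na G c x y = na G c x' y' := fun hx hy => mno_card hc hI hx hy
  have hnb : ∀ {x x' y y' : V}, c x x = c x' x' → c y y = c y' y' →
      nb G c x y = nb G c x' y' := fun hx hy => mno_card hc hJ hx hy
  have hle : ∀ x y : V, na G c x y ≤ nb G c x y → na G c y x ≤ nb G c y x := by
    intro x y h
    have ha : Nat.card {w : V // c w w = c x x} * na G c x y =
        Nat.card {w : V // c w w = c y y} * na G c y x :=
      mno_double hc hI (fun a b h => h.symm) x y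
    have hb : Nat.card {w : V // c w w = c x x} * nb G c x y =
        Nat.card {w : V // c w w = c y y} * nb G c y x :=
      mno_double hc hJ (fun a b h h' => h h'.symm) x y
    have hpos : 0 < Nat.card {w : V // c w w = c y y} := by
      have : Nonempty {w : V // c w w = c y y} := ⟨⟨y, rfl⟩⟩
      exact Nat.card_pos
    refine Nat.le_of_mul_le_mul_left ?_ hpos
    rw [← ha, ← hb]
    exact Nat.mul_le_mul_left _ h
  have hMn : ∀ x w y : V, c w w = c y y → (Mn G c x w ↔ x ≠ w ∧
      ((na G c x y ≤ nb G c x y ∧ G.Adj x w) ∨ (nb G c x y < na G c x y ∧ ¬ G.Adj x w))) := by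
    intro x w y hw
    unfold Mn
    rw [hna (x := x) (x' := x) rfl hw, hnb (x := x) (x' := x) rfl hw]
  refine ⟨?_, ?_, ?_, ?_⟩
  · rintro x y ⟨hne, h | h⟩
    · exact ⟨hne.symm, Or.inl ⟨hle x y h.1, h.2.symm⟩⟩
    · refine ⟨hne.symm, Or.inr ⟨?_, fun h' => h.2 h'.symm⟩⟩
      by_contra hcon
      have := hle y x (not_lt.mp hcon)
      exact absurd h.1 (not_lt.mpr this)
  · intro x y x' y' h
    obtain ⟨hx, hy⟩ := hval x y x' y' h
    have hne : x ≠ y ↔ x' ≠ y' := by
      refine not_congr ⟨fun h' => ?_, fun h' => ?_⟩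
      · subst h'
        exact hc.diag x x' y' h
      · subst h'
        exact hc.diag x' x y h.symm
    unfold Mn
    rw [hna hx hy, hnb hx hy, hI x y x' y' h, hne]
  · intro x z x1 z1 hx hz hne hne1 h h1
    unfold Mn at h h1
    rw [hna hx hz, hnb hx hz] at h
    by_cases hc' : na G c x1 z1 ≤ nb G c x1 z1
    · have a : ¬ G.Adj x z := fun h' => h ⟨hne, Or.inl ⟨hc', h'⟩⟩
      have a1 : ¬ G.Adj x1 z1 := fun h' => h1 ⟨hne1, Or.inl ⟨hc', h'⟩⟩
      exact ⟨fun h' => absurd h' a, fun h' => absurd h' a1⟩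
    · have a : G.Adj x z := by
        by_contra h'
        exact h ⟨hne, Or.inr ⟨not_le.mp hc', h'⟩⟩
      have a1 : G.Adj x1 z1 := by
        by_contra h'
        exact h1 ⟨hne1, Or.inr ⟨not_le.mp hc', h'⟩⟩
      exact ⟨fun _ => a1, fun _ => a⟩
  · intro x y
    by_cases h : na G c x y ≤ nb G c x y
    · have e1 : Nat.card {w : V // c w w = c y y ∧ Mn G c x w} = na G c x y := by
        refine Nat.card_congr (Equiv.subtypeEquivRight fun w => ?_)
        constructor
        · rintro ⟨hw, hM⟩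
          obtain ⟨hne, h' | h'⟩ := (hMn x w y hw).mp hM
          · exact ⟨hw, hne.symm, h'.2⟩
          · exact absurd h (not_le.mpr h'.1)
        · rintro ⟨hw, hne, hA⟩
          exact ⟨hw, (hMn x w y hw).mpr ⟨hne.symm, Or.inl ⟨h, hA⟩⟩⟩
      have e2 : Nat.card {w : V // c w w = c y y ∧ w ≠ x ∧ ¬ Mn G c x w} = nb G c x y := by
        refine Nat.card_congr (Equiv.subtypeEquivRight fun w => ?_)
        constructor
        · rintro ⟨hw, hne, hM⟩
          exact ⟨hw, hne, fun hA => hM ((hMn x w y hw).mpr ⟨hne.symm, Or.inl ⟨h, hA⟩⟩)⟩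
        · rintro ⟨hw, hne, hA⟩
          refine ⟨hw, hne, fun hM => ?_⟩
          obtain ⟨-, h' | h'⟩ := (hMn x w y hw).mp hM
          · exact hA h'.2
          · exact absurd h (not_le.mpr h'.1)
      rw [e1, e2]
      exact h
    · have h0 := not_le.mp h
      have e1 : Nat.card {w : V // c w w = c y y ∧ Mn G c x w} = nb G c x y := by
        refine Nat.card_congr (Equiv.subtypeEquivRight fun w => ?_)
        constructor
        · rintro ⟨hw, hM⟩
          obtain ⟨hne, h' | h'⟩ := (hMn x w y hw).mp hM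
          · exact absurd h'.1 h
          · exact ⟨hw, hne.symm, h'.2⟩
        · rintro ⟨hw, hne, hA⟩
          exact ⟨hw, (hMn x w y hw).mpr ⟨hne.symm, Or.inr ⟨h0, hA⟩⟩⟩
      have e2 : Nat.card {w : V // c w w = c y y ∧ w ≠ x ∧ ¬ Mn G c x w} = na G c x y := by
        refine Nat.card_congr (Equiv.subtypeEquivRight fun w => ?_)
        constructor
        · rintro ⟨hw, hne, hM⟩
          refine ⟨hw, hne, ?_⟩
          by_contra hA
          exact hM ((hMn x w y hw).mpr ⟨hne.symm, Or.inr ⟨h0, hA⟩⟩)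
        · rintro ⟨hw, hne, hA⟩
          refine ⟨hw, hne, fun hM => ?_⟩
          obtain ⟨-, h' | h'⟩ := (hMn x w y hw).mp hM
          · exact absurd h'.1 h
          · exact h'.2 hA
      rw [e1, e2]
      exact h0.le

end Pool.Agent.WLE
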