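import Mathlib
import Pool.Agent.BRW.MCnt
import Pool.Agent.WLE.St

set_option autoImplicit false

/-!
# The connectivity relation of a union of colours (module RCH of MP_87b449_lc)   (helper8)
-/

namespace Pool.Agent.WLE

open Pool.Agent.BRW

/-- One direction, by induction along a walk. -/
theorem reach_of_walk (V κ : Type) [Finite V] (c : V → V → κ) (Γ : SimpleGraph V)
    (hc : Coherent c) (hI : Inv c Γ.Adj) {x y : V} (p : Γ.Walk x y) :
    ∀ x' y' : V, c x y = c x' y' → Γ.Reachable x' y' := by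
  induction p with
  | nil =>
    intro x' y' h
    have h1 := hc.diag _ x' y' h
    rw [h1]
  | cons hadj _ ih =>
    intro x' y' h
    obtain ⟨e, he⟩ := cnt V κ c hc _ _ x' y' h
    obtain ⟨h1, h2⟩ := he _
    have h3 : Γ.Adj x' _ := (hI _ _ _ _ h1).2 hadj
    exact h3.reachable.trans (ih _ y' h2.symm)

/-- RCH. -/
theorem rch : StmtRCH := by
  intro V κ _ c Γ hc hI
  have hinv : Inv c Γ.Reachable := by
    intro x y x' y' h
    exact ⟨fun ⟨p⟩ => reach_of_walk V κ c Γ hc hI p x' y' h,
      fun ⟨p⟩ => reach_of_walk V κ c Γ hc hI p x y h.symm⟩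
  refine ⟨hinv, fun x x' h => ?_⟩
  obtain ⟨e, he⟩ := cnt V κ c hc x x x' x' h
  exact Nat.card_congr (e.subtypeEquiv fun y => hinv _ _ _ _ (he y).1.symm)

end Pool.Agent.WLE
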