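import Mathlib
import Pool.Agent.WLE.St

set_option autoImplicit false

/-!
# WLE: the theorem from GRZ and FIN (choice of the constants)
-/

namespace Pool.Agent.WLE

open Pool.Agent.BRW

/-- WLE from GRZ and FIN. -/
theorem wle (hGRZ : StmtGRZ) (hFIN : StmtFIN) : StmtWLE := by
  intro ε hε
  obtain ⟨K, hK⟩ := exists_nat_gt (6 / ε)
  have hK0 : (0 : ℝ) < K := lt_of_le_of_lt (by positivity) hK
  have hK1 : 1 ≤ K := by exact_mod_cast hK0
  have hK3 : 3 / (K : ℝ) ≤ ε / 2 := by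
    rw [div_lt_iff₀ hε] at hK
    rw [div_le_div_iff₀ hK0 (by norm_num)]
    nlinarith
  set C : ℕ := (4 * K ^ 2 + 1) ^ (2 * K) with hC
  obtain ⟨M, hM⟩ := exists_nat_gt (8 * (C : ℝ) / ε)
  have hM0 : (0 : ℝ) < M := lt_of_le_of_lt (by positivity) hM
  have hM1 : 1 ≤ M := by exact_mod_cast hM0
  have hM3 : 2 * (C : ℝ) / (M : ℝ) ≤ ε / 4 := by
    rw [div_lt_iff₀ hε] at hM
    rw [div_le_div_iff₀ hM0 (by norm_num)]
    nlinarith
  set L : ℕ := C * (M + M * K + K + 1) with hL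
  obtain ⟨N, hN⟩ := exists_nat_gt (4 * ((L : ℝ) + 9) / ε)
  refine ⟨N, ?_⟩
  intro V _ G hV
  set n : ℕ := Fintype.card V with hn
  have hnN : (N : ℝ) ≤ (n : ℝ) := by exact_mod_cast hV
  have hL9 : (L : ℝ) + 9 ≤ ε / 4 * n := by
    rw [div_lt_iff₀ hε] at hN
    nlinarith
  set k : ℕ := 2 * n / K + n / 8 + n / K + 2 * C * n / M + L + 9 with hk
  have hk5 : 2 * Fintype.card V / K + 5 ≤ k := by
    rw [← hn, hk]
    have h1 := Nat.zero_le (n / 8)
    have h2 := Nat.zero_le (n / K)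
    have h3 := Nat.zero_le (2 * C * n / M)
    have h4 := Nat.zero_le L
    linarith
  obtain ⟨t, s, ht, hs⟩ := hGRZ V k K G hK1 hk5
  rw [← hn] at ht
  refine ⟨k, ?_, hFIN V k K M t G s hK1 hM1 hs ?_⟩
  · have e1 : ((2 * n / K : ℕ) : ℝ) ≤ 2 * n / K := by
      have := @Nat.cast_div_le ℝ _ _ _ (2 * n) K
      push_cast at this
      exact this
    have e2 : ((n / 8 : ℕ) : ℝ) ≤ n / 8 := by
      have := @Nat.cast_div_le ℝ _ _ _ n 8
      push_cast at this
      exact this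
    have e3 : ((n / K : ℕ) : ℝ) ≤ n / K := Nat.cast_div_le
    have e4 : ((2 * C * n / M : ℕ) : ℝ) ≤ 2 * C * n / M := by
      have := @Nat.cast_div_le ℝ _ _ _ (2 * C * n) M
      push_cast at this
      exact this
    have hn0 : (0 : ℝ) ≤ n := Nat.cast_nonneg n
    have e5 : (2 * n / K : ℝ) + n / K = 3 / (K : ℝ) * n := by ring
    have e6 : (2 * C * n / M : ℝ) = 2 * (C : ℝ) / (M : ℝ) * n := by ring
    have e7 := mul_le_mul_of_nonneg_right hK3 hn0
    have e8 := mul_le_mul_of_nonneg_right hM3 hn0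
    rw [hk]
    push_cast
    nlinarith
  · rw [hk]
    have : t + n / 8 + n / K + 2 * C * n / M + L + 9 ≤
        2 * n / K + n / 8 + n / K + 2 * C * n / M + L + 9 := by omega
    exact this

end Pool.Agent.WLE
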