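import Pool.Agent.WLE.St
import Pool.Agent.BRW.TYC
import Pool.Agent.BRW.MSim

set_option autoImplicit false

/-!
# Module PIN: adding one vertex to the parameters
-/

namespace Pool.Agent.WLE

open Pool.Agent.BRW

theorem snoc_lt {V : Type} {t : ℕ} (s : Fin t → V) (x : V) (i : Fin (t + 1)) (h : i.1 < t) :
    Fin.snoc (α := fun _ => V) s x i = s ⟨i.1, h⟩ := by
  simp only [Fin.snoc, h, dif_pos]
  rfl

theorem snoc_eq {V : Type} {t : ℕ} (s : Fin t → V) (x : V) (i : Fin (t + 1)) (h : i.1 = t) :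
    Fin.snoc (α := fun _ => V) s x i = x := by
  have h1 : ¬ i.1 < t := by omega
  simp only [Fin.snoc, h1, dif_neg, not_false_iff]
  rfl

theorem tup_snoc {V : Type} (k t : ℕ) (s : Fin t → V) (x y : V) :
    tup k (t + 1) (Fin.snoc (α := fun _ => V) s x) y y = tup k t s x y := by
  funext i
  rcases lt_trichotomy i.1 t with h | h | h
  · rw [tup_lt _ _ _ i (by omega : i.1 < t + 1), tup_lt _ _ _ i h]
    exact snoc_lt s x _ h
  · rw [tup_lt _ _ _ i (by omega : i.1 < t + 1), tup_eq _ _ _ i h]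
    exact snoc_eq s x _ h
  · rw [tup_gt s x y i h]
    rcases (by omega : i.1 = t + 1 ∨ t + 1 < i.1) with h1 | h1
    · exact tup_eq _ _ _ i h1
    · exact tup_gt _ _ _ i h1

/-- Module PIN. -/
theorem pin : StmtPIN := by
  intro V k t G s x hk
  refine ⟨fun y => ?_, ?_⟩
  · unfold typ
    rw [tup_snoc]
  · intro a b a' b' h
    have h1 := (tyc sim V k (t + 1) G (Fin.snoc (α := fun _ => V) s x) (by omega)).2.1 a b a' b'
    have h2 := (tyc sim V k t G s (by omega)).2.1 a b a' b'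
    have h3 := h1.1 h
    refine h2.2 ?_
    have h4 := sim.2.2.2.2 V V k G G _ _ (rix k t ⟨t + 1, by omega⟩ ⟨t + 2, by omega⟩) h3
    have h5 : ∀ p q : V, (fun i => tup k (t + 1) (Fin.snoc (α := fun _ => V) s x) p q
        (rix k t ⟨t + 1, by omega⟩ ⟨t + 2, by omega⟩ i)) = tup k t s p q := by
      intro p q
      have h6 := tup_rix s (tup k (t + 1) (Fin.snoc (α := fun _ => V) s x) p q)
        (⟨t + 1, by omega⟩ : Fin k) (⟨t + 2, by omega⟩ : Fin k) (by
          intro i h
          rw [tup_lt _ _ _ i (by omega : i.1 < t + 1)]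
          exact snoc_lt s x _ h)
      rw [h6]
      congr 1
      · exact tup_eq (t := t + 1) _ _ _ (⟨t + 1, by omega⟩ : Fin k) rfl
      · exact tup_gt (t := t + 1) _ _ _ (⟨t + 2, by omega⟩ : Fin k) (Nat.lt_succ_self _)
    rw [h5 a b, h5 a' b'] at h4
    exact h4

end Pool.Agent.WLE
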